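import Pool.Agent.Run7.h932.DS.FIN

set_option autoImplicit false

namespace Run7.h932.DS

open Finset Classical Filter

theorem ev_AA (k Δ : ℕ) (hk : 1 ≤ k) : ∃ n₀ : ℕ, ∀ n : ℕ, n₀ ≤ n → 1 ≤ n ∧
    (k : ℝ) * (n : ℝ) ^ (2 / 3 : ℝ) + 1 ≤ n / 2 ∧ 2 * (Δ : ℝ) ^ 2 * n ≤ ((n : ℝ) ^ (2 / 3 : ℝ)) ^ 2 ∧
    64 * (k : ℝ) ^ (4 * ⌈(k : ℝ) * (n : ℝ) ^ (2 / 3 : ℝ)⌉₊) * Real.exp ((n : ℝ) ^ (4 / 5 : ℝ)) ≤
      Real.exp ((n : ℝ) ^ (17 / 20 : ℝ)) := by
  have hkR : (1 : ℝ) ≤ k := by exact_mod_cast hk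
  have hL : 0 ≤ Real.log k := Real.log_nonneg hkR
  have t1 : Tendsto (fun n : ℕ => (n : ℝ) ^ (1 / 20 : ℝ)) atTop atTop :=
    (tendsto_rpow_atTop (by norm_num)).comp tendsto_natCast_atTop_atTop
  have t2 : Tendsto (fun n : ℕ => (n : ℝ) ^ (1 / 3 : ℝ)) atTop atTop :=
    (tendsto_rpow_atTop (by norm_num)).comp tendsto_natCast_atTop_atTop
  obtain ⟨n₄, h4⟩ := eventually_atTop.1
    ((t1.eventually_ge_atTop (6 + 4 * (k + 1) * Real.log k)).and
      ((t2.eventually_ge_atTop (2 * (k + 1))).and (t2.eventually_ge_atTop (2 * (Δ : ℝ) ^ 2))))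
  refine ⟨max n₄ 1, fun n hn => ?_⟩
  have hn1 : 1 ≤ n := (le_max_right _ _).trans hn
  obtain ⟨h1, h2, h3⟩ := h4 n ((le_max_left _ _).trans hn)
  have hnR : (1 : ℝ) ≤ n := by exact_mod_cast hn1
  have hn0 : (0 : ℝ) < n := by linarith
  have ha : (1 : ℝ) ≤ (n : ℝ) ^ (2 / 3 : ℝ) := Real.one_le_rpow hnR (by norm_num)
  have hb : (n : ℝ) = (n : ℝ) ^ (1 / 3 : ℝ) * (n : ℝ) ^ (2 / 3 : ℝ) := by
    rw [← Real.rpow_add hn0]; norm_num
  refine ⟨hn1, ?_, ?_, ?_⟩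
  · have : 2 * ((k : ℝ) + 1) * (n : ℝ) ^ (2 / 3 : ℝ) ≤ (n : ℝ) ^ (1 / 3 : ℝ) * (n : ℝ) ^ (2 / 3 : ℝ) :=
      mul_le_mul_of_nonneg_right h2 (by linarith)
    rw [← hb] at this
    nlinarith
  · have e : ((n : ℝ) ^ (2 / 3 : ℝ)) ^ 2 = (n : ℝ) ^ (1 / 3 : ℝ) * n := by
      rw [← Real.rpow_natCast, ← Real.rpow_mul hn0.le]
      nth_rw 3 [← Real.rpow_one (n : ℝ)]
      rw [← Real.rpow_add hn0]
      norm_num
    rw [e]
    exact mul_le_mul_of_nonneg_right h3 hn0.le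
  · set s : ℕ := ⌈(k : ℝ) * (n : ℝ) ^ (2 / 3 : ℝ)⌉₊ with hs
    have hs1 : (s : ℝ) ≤ (k : ℝ) * (n : ℝ) ^ (2 / 3 : ℝ) + 1 :=
      (Nat.ceil_lt_add_one (by positivity)).le
    have hc1 : (n : ℝ) ^ (2 / 3 : ℝ) ≤ (n : ℝ) ^ (4 / 5 : ℝ) :=
      Real.rpow_le_rpow_of_exponent_le hnR (by norm_num)
    have hc2 : (1 : ℝ) ≤ (n : ℝ) ^ (4 / 5 : ℝ) := Real.one_le_rpow hnR (by norm_num)
    have hc3 : (n : ℝ) ^ (17 / 20 : ℝ) = (n : ℝ) ^ (1 / 20 : ℝ) * (n : ℝ) ^ (4 / 5 : ℝ) := by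
      rw [← Real.rpow_add hn0]; norm_num
    have hs2 : (s : ℝ) ≤ (k + 1) * (n : ℝ) ^ (4 / 5 : ℝ) := by nlinarith
    have h64 : (64 : ℝ) ≤ Real.exp 5 := by
      have : (2.7 : ℝ) ≤ Real.exp 1 := by linarith [Real.exp_one_gt_d9]
      calc (64 : ℝ) ≤ 2.7 ^ 5 := by norm_num
        _ ≤ Real.exp 1 ^ 5 := by gcongr
        _ = Real.exp 5 := by rw [← Real.exp_nat_mul]; norm_num
    have hkp : (k : ℝ) ^ (4 * s) = Real.exp (4 * s * Real.log k) := by
      rw [← Real.rpow_natCast, Real.rpow_def_of_pos (by linarith)]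
      push_cast
      congr 1; ring
    rw [hkp]
    calc 64 * Real.exp (4 * s * Real.log k) * Real.exp ((n : ℝ) ^ (4 / 5 : ℝ))
        ≤ Real.exp 5 * Real.exp (4 * s * Real.log k) * Real.exp ((n : ℝ) ^ (4 / 5 : ℝ)) := by
          gcongr
      _ = Real.exp (5 + 4 * s * Real.log k + (n : ℝ) ^ (4 / 5 : ℝ)) := by
          rw [Real.exp_add, Real.exp_add]
      _ ≤ _ := by
          apply Real.exp_le_exp.2
          have g1 : 4 * (s : ℝ) * Real.log k ≤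
              4 * ((k + 1) * (n : ℝ) ^ (4 / 5 : ℝ)) * Real.log k := by
            gcongr
          have g2 : (6 + 4 * (k + 1) * Real.log k) * (n : ℝ) ^ (4 / 5 : ℝ) ≤
              (n : ℝ) ^ (1 / 20 : ℝ) * (n : ℝ) ^ (4 / 5 : ℝ) := by
            gcongr
          rw [hc3]
          nlinarith

/-- number of the permutations for a nearly balanced colouring -/
theorem first_AA (hLBC : S_LBC) (hLB : S_LB) {n m k s : ℕ} {w : ℝ} (hk : 4 ≤ k) (hsm : s ≤ m)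
    (hw : 0 ≤ w) (hks : k * w ≤ s) (hmw : 4 * (m : ℝ) ≤ w ^ 2) (v : HE m → Fin n)
    (σ : Fin n → Fin k) (hσ : NB v w σ) :
    ((2 * m).factorial : ℝ) * (1 - 1 / (k : ℝ)) ^ m ≤ 2 * (k : ℝ) ^ (2 * s) *
      ((univ.filter fun π : Equiv.Perm (HE m) => Prp v π σ).card : ℝ) := by
  have hk0 : (0 : ℝ) < k := by
    have : 0 < k := by omega
    exact_mod_cast this
  set κ : HE m → Fin k := fun h => σ (v h) with hκ
  have hsum : ∑ a, cnt κ a = 2 * m := by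
    exact sum_cnt κ
  have h1 := hLBC k m s w (cnt κ) hk hsm hw hks hmw hsum hσ
  have h2 := hLB k m κ (by omega)
  have h2' : ((2 * m).factorial : ℝ) * ((univ.filter fun c : HE m → Fin k =>
      (∀ a, cnt c a = cnt κ a) ∧ ∀ j, c (j, false) ≠ c (j, true)).card : ℝ) ≤
      (k : ℝ) ^ (2 * m) * ((univ.filter fun π : Equiv.Perm (HE m) => Prp v π σ).card : ℝ) := by
    have := h2
    have h3 : (univ.filter fun π : Equiv.Perm (HE m) =>
      ∀ j, κ (π (j, false)) ≠ κ (π (j, true))) =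
      (univ.filter fun π : Equiv.Perm (HE m) => Prp v π σ) := by
      ext π; simp only [mem_filter]; exact Iff.rfl
    rw [h3] at this
    exact_mod_cast this
  set C : ℝ := ((univ.filter fun c : HE m → Fin k =>
      (∀ a, cnt c a = cnt κ a) ∧ ∀ j, c (j, false) ≠ c (j, true)).card : ℝ) with hC
  set Q : ℝ := ((univ.filter fun π : Equiv.Perm (HE m) => Prp v π σ).card : ℝ) with hQ
  have e : ((k : ℝ) * (k - 1)) ^ m = (k : ℝ) ^ (2 * m) * (1 - 1 / (k : ℝ)) ^ m := by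
    rw [pow_mul, ← mul_pow]
    congr 1
    field_simp
  rw [e] at h1
  have hF : (0 : ℝ) ≤ ((2 * m).factorial : ℝ) := by positivity
  have h5 : (k : ℝ) ^ (2 * m) * (((2 * m).factorial : ℝ) * (1 - 1 / (k : ℝ)) ^ m) ≤
      (k : ℝ) ^ (2 * m) * (2 * (k : ℝ) ^ (2 * s) * Q) := by
    calc (k : ℝ) ^ (2 * m) * (((2 * m).factorial : ℝ) * (1 - 1 / (k : ℝ)) ^ m)
        = ((2 * m).factorial : ℝ) * ((k : ℝ) ^ (2 * m) * (1 - 1 / (k : ℝ)) ^ m) := by ring
      _ ≤ ((2 * m).factorial : ℝ) * (2 * (k : ℝ) ^ (2 * s) * C) :=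
          mul_le_mul_of_nonneg_left h1 hF
      _ = 2 * (k : ℝ) ^ (2 * s) * (((2 * m).factorial : ℝ) * C) := by ring
      _ ≤ 2 * (k : ℝ) ^ (2 * s) * ((k : ℝ) ^ (2 * m) * Q) :=
          mul_le_mul_of_nonneg_left h2' (by positivity)
      _ = _ := by ring
  exact le_of_mul_le_mul_left h5 (by positivity)

theorem t_AA (hSEC : S_SEC) (hLBC : S_LBC) (hLB : S_LB) (hBAL : S_BAL) (hPZ : RG.S_PZ) :
    S_AA := by
  intro k Δ hk hcond
  obtain ⟨n₁, hSEC⟩ := hSEC k Δ hk hcond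
  obtain ⟨n₂, hev⟩ := ev_AA k Δ (by omega)
  refine ⟨max n₁ n₂, fun n m hn hnm v hv => ?_⟩
  have hn₁ : n₁ ≤ n := (le_max_left _ _).trans hn
  obtain ⟨hn1, e1, e2, e3⟩ := hev n ((le_max_right _ _).trans hn)
  have hnR : (1 : ℝ) ≤ n := by exact_mod_cast hn1
  have hn0 : (0 : ℝ) < n := by linarith
  have hkR : (3000 : ℝ) ≤ k := by exact_mod_cast hk
  have hk0 : (0 : ℝ) < k := by linarith
  set w : ℝ := (n : ℝ) ^ (2 / 3 : ℝ) with hw
  have hw0 : 0 < w := by rw [hw]; positivity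
  set s : ℕ := ⌈(k : ℝ) * w⌉₊ with hs
  have hks : (k : ℝ) * w ≤ s := Nat.le_ceil _
  have hs1 : (s : ℝ) ≤ (k : ℝ) * w + 1 := (Nat.ceil_lt_add_one (by positivity)).le
  have hnm' : (n : ℝ) ≤ 2 * m := by exact_mod_cast hnm
  have hsm : s ≤ m := by
    have : (s : ℝ) ≤ m := by linarith
    exact_mod_cast this
  have h2m : 2 * (m : ℝ) ≤ Δ * n := by exact_mod_cast two_m_le v hv
  have hm0 : (0 : ℝ) < m := by linarith
  have hΔ1 : (1 : ℝ) ≤ Δ := by
    have : 0 < Δ := by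
      rcases Nat.eq_zero_or_pos Δ with h | h
      · rw [h] at h2m; simp at h2m; linarith
      · exact h
    exact_mod_cast this
  have hΔm : 4 * (Δ : ℝ) * m ≤ w ^ 2 := by nlinarith
  have hmw : 4 * (m : ℝ) ≤ w ^ 2 := by nlinarith
  have hF : (0 : ℝ) < ((2 * m).factorial : ℝ) := by exact_mod_cast Nat.factorial_pos _
  have hb0 : (0 : ℝ) < (1 - 1 / (k : ℝ)) ^ m := by
    apply pow_pos
    have : 1 / (k : ℝ) < 1 := by rw [div_lt_one hk0]; linarith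
    linarith
  set b : ℝ := (1 - 1 / (k : ℝ)) ^ m with hb
  -- the random variable
  set X : Equiv.Perm (HE m) → ℝ := fun π =>
    ∑ σ ∈ univ.filter (fun σ : Fin n → Fin k => NB v w σ), if Prp v π σ then (1 : ℝ) else 0 with hX
  have hX0 : ∀ π, 0 ≤ X π := fun π => Finset.sum_nonneg fun σ _ => by split_ifs <;> norm_num
  have hXc : ∀ π, X π ≤ ((cols k v π).card : ℝ) := by
    intro π
    have : ((cols k v π).card : ℝ) = ∑ σ : Fin n → Fin k, if Prp v π σ then (1 : ℝ) else 0 := by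
      unfold cols
      rw [Finset.sum_boole]
    rw [this]
    exact Finset.sum_le_sum_of_subset_of_nonneg (Finset.filter_subset _ _)
      (fun σ _ _ => by split_ifs <;> norm_num)
  have hcardsum : ∀ P : Equiv.Perm (HE m) → Prop,
      ((univ.filter fun π => P π).card : ℝ) = ∑ π, if P π then (1 : ℝ) else 0 := by
    intro P; rw [Finset.sum_boole]
  -- first moment
  have hfirst : (k : ℝ) ^ n * (((2 * m).factorial : ℝ) * b) ≤
      4 * (k : ℝ) ^ (2 * s) * ∑ π, X π := by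
    have h1 : ∑ π, X π = ∑ σ ∈ univ.filter (fun σ : Fin n → Fin k => NB v w σ),
        ((univ.filter fun π : Equiv.Perm (HE m) => Prp v π σ).card : ℝ) := by
      rw [hX, Finset.sum_comm]
      refine Finset.sum_congr rfl fun σ _ => ?_
      rw [hcardsum]
    have h2 : ∑ _σ ∈ univ.filter (fun σ : Fin n → Fin k => NB v w σ),
        (((2 * m).factorial : ℝ) * b) ≤ ∑ σ ∈ univ.filter (fun σ : Fin n → Fin k => NB v w σ),
          2 * (k : ℝ) ^ (2 * s) *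
          ((univ.filter fun π : Equiv.Perm (HE m) => Prp v π σ).card : ℝ) :=
      Finset.sum_le_sum fun σ hσ => first_AA hLBC hLB (by omega) hsm hw0.le hks hmw v σ
        (mem_filter.1 hσ).2
    rw [Finset.sum_const, nsmul_eq_mul, ← Finset.mul_sum, ← h1] at h2
    have h3 := hBAL n m k Δ v w (by omega) hw0 hv hΔm
    have h4 : (k : ℝ) ^ n * (((2 * m).factorial : ℝ) * b) ≤
        2 * ((univ.filter fun σ : Fin n → Fin k => NB v w σ).card : ℝ) *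
          (((2 * m).factorial : ℝ) * b) := mul_le_mul_of_nonneg_right h3 (by positivity)
    linarith
  -- second moment
  have hsecond : ∑ π, X π ^ 2 ≤ ((2 * m).factorial : ℝ) * b ^ 2 * ((k : ℝ) ^ n) ^ 2 *
      Real.exp ((n : ℝ) ^ (4 / 5 : ℝ)) := by
    have h1 : ∑ π, X π ^ 2 = ∑ σ ∈ univ.filter (fun σ : Fin n → Fin k => NB v w σ),
        ∑ τ ∈ univ.filter (fun σ : Fin n → Fin k => NB v w σ),
        ((univ.filter fun π : Equiv.Perm (HE m) => Prp v π σ ∧ Prp v π τ).card : ℝ) := by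
      have h2 : ∀ π, X π ^ 2 = ∑ σ ∈ univ.filter (fun σ : Fin n → Fin k => NB v w σ),
          ∑ τ ∈ univ.filter (fun σ : Fin n → Fin k => NB v w σ),
          if Prp v π σ ∧ Prp v π τ then (1 : ℝ) else 0 := by
        intro π
        rw [hX, sq, Finset.sum_mul_sum]
        refine Finset.sum_congr rfl fun σ _ => Finset.sum_congr rfl fun τ _ => ?_
        by_cases a1 : Prp v π σ <;> by_cases a2 : Prp v π τ <;> simp [a1, a2]
      rw [Finset.sum_congr rfl fun π _ => h2 π, Finset.sum_comm]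
      refine Finset.sum_congr rfl fun σ _ => ?_
      rw [Finset.sum_comm]
      refine Finset.sum_congr rfl fun τ _ => ?_
      rw [Finset.sum_boole]
    rw [h1]
    have h3 : ∀ σ ∈ univ.filter (fun σ : Fin n → Fin k => NB v w σ),
        ∑ τ ∈ univ.filter (fun σ : Fin n → Fin k => NB v w σ),
        ((univ.filter fun π : Equiv.Perm (HE m) => Prp v π σ ∧ Prp v π τ).card : ℝ) ≤
        ((2 * m).factorial : ℝ) * b ^ 2 * (k : ℝ) ^ n * Real.exp ((n : ℝ) ^ (4 / 5 : ℝ)) := by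
      intro σ hσ
      have h4 := hSEC n m hn₁ hnm v hv σ (mem_filter.1 hσ).2
      have h5 : (1 - 1 / (k : ℝ)) ^ (2 * m) = b ^ 2 := by rw [hb, ← pow_mul, mul_comm]
      rw [h5] at h4
      exact (Finset.sum_le_sum_of_subset_of_nonneg (Finset.filter_subset _ _)
        (fun τ _ _ => Nat.cast_nonneg _)).trans h4
    refine (Finset.sum_le_sum h3).trans ?_
    rw [Finset.sum_const, nsmul_eq_mul]
    have h6 : ((univ.filter fun σ : Fin n → Fin k => NB v w σ).card : ℝ) ≤ (k : ℝ) ^ n := by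
      have h7 : (univ.filter fun σ : Fin n → Fin k => NB v w σ).card ≤
          (univ : Finset (Fin n → Fin k)).card := Finset.card_filter_le _ _
      rw [Finset.card_univ, Fintype.card_fun, Fintype.card_fin, Fintype.card_fin] at h7
      exact_mod_cast h7
    calc _ ≤ (k : ℝ) ^ n * (((2 * m).factorial : ℝ) * b ^ 2 * (k : ℝ) ^ n *
          Real.exp ((n : ℝ) ^ (4 / 5 : ℝ))) := mul_le_mul_of_nonneg_right h6 (by positivity)
      _ = _ := by ring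
  -- Paley-Zygmund
  set c : ℝ := (k : ℝ) ^ n * b / (8 * (k : ℝ) ^ (2 * s)) with hc
  have hc0 : 0 ≤ c := by rw [hc]; positivity
  have hmean : 2 * c ≤ ∑ π, (1 / ((2 * m).factorial : ℝ)) * X π := by
    rw [← Finset.mul_sum, hc]
    have hks0 : (0 : ℝ) < (k : ℝ) ^ (2 * s) := by positivity
    rw [one_div, inv_mul_eq_div, le_div_iff₀ hF]
    have : 2 * ((k : ℝ) ^ n * b / (8 * (k : ℝ) ^ (2 * s))) * ((2 * m).factorial : ℝ) =
        ((k : ℝ) ^ n * (((2 * m).factorial : ℝ) * b)) / (4 * (k : ℝ) ^ (2 * s)) := by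
      field_simp
      ring
    rw [this, div_le_iff₀ (by positivity)]
    linarith
  have hone : ∑ _π : Equiv.Perm (HE m), (1 / ((2 * m).factorial : ℝ)) = 1 := by
    rw [Finset.sum_const, nsmul_eq_mul, Finset.card_univ, Fintype.card_perm]
    have : Fintype.card (HE m) = 2 * m := by simp [HE, Fintype.card_prod, mul_comm]
    rw [this]
    field_simp
  have hpz := hPZ (Equiv.Perm (HE m)) (fun _ => 1 / ((2 * m).factorial : ℝ)) X c
    (fun _ => by positivity) hone hX0 hmean hc0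
  set A : Finset (Equiv.Perm (HE m)) := univ.filter fun π => c ≤ X π with hA
  have hAsum : ∑ _π ∈ A, (1 / ((2 * m).factorial : ℝ)) = (A.card : ℝ) / ((2 * m).factorial : ℝ) := by
    rw [Finset.sum_const, nsmul_eq_mul]; ring
  have hX2 : ∑ π, (1 / ((2 * m).factorial : ℝ)) * X π ^ 2 ≤ b ^ 2 * ((k : ℝ) ^ n) ^ 2 *
      Real.exp ((n : ℝ) ^ (4 / 5 : ℝ)) := by
    rw [← Finset.mul_sum, one_div, inv_mul_eq_div, div_le_iff₀ hF]
    refine hsecond.trans (le_of_eq ?_)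
    ring
  have hks0 : (0 : ℝ) < (k : ℝ) ^ (2 * s) := by positivity
  have hAc : 1 / (64 * (k : ℝ) ^ (4 * s) * Real.exp ((n : ℝ) ^ (4 / 5 : ℝ))) *
      ((2 * m).factorial : ℝ) ≤ (A.card : ℝ) := by
    have h1 : (2 * c) ^ 2 ≤ 4 * (b ^ 2 * ((k : ℝ) ^ n) ^ 2 * Real.exp ((n : ℝ) ^ (4 / 5 : ℝ))) *
        ((A.card : ℝ) / ((2 * m).factorial : ℝ)) := by
      have g1 : (2 * c) ^ 2 ≤ (∑ π, (1 / ((2 * m).factorial : ℝ)) * X π) ^ 2 := by
        gcongr
      refine g1.trans (hpz.trans ?_)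
      have g2 : ∑ ω ∈ univ.filter (fun ω => c ≤ X ω), (1 / ((2 * m).factorial : ℝ)) =
          (A.card : ℝ) / ((2 * m).factorial : ℝ) := hAsum
      rw [g2]
      gcongr
    have h2 : (2 * c) ^ 2 = (b ^ 2 * ((k : ℝ) ^ n) ^ 2) / (16 * (k : ℝ) ^ (4 * s)) := by
      rw [hc]
      have : (k : ℝ) ^ (4 * s) = ((k : ℝ) ^ (2 * s)) ^ 2 := by rw [← pow_mul]; congr 1; ring
      rw [this]
      field_simp
      ring
    rw [h2] at h1
    have hE : (0 : ℝ) < Real.exp ((n : ℝ) ^ (4 / 5 : ℝ)) := Real.exp_pos _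
    have hbk : (0 : ℝ) < b ^ 2 * ((k : ℝ) ^ n) ^ 2 := by positivity
    have hk4 : (0 : ℝ) < (k : ℝ) ^ (4 * s) := by positivity
    rw [div_le_iff₀ (by positivity)] at h1
    have h3 : 1 ≤ 64 * (k : ℝ) ^ (4 * s) * Real.exp ((n : ℝ) ^ (4 / 5 : ℝ)) *
        ((A.card : ℝ) / ((2 * m).factorial : ℝ)) := by
      have h4 : (b ^ 2 * ((k : ℝ) ^ n) ^ 2) * 1 ≤ (b ^ 2 * ((k : ℝ) ^ n) ^ 2) *
          (64 * (k : ℝ) ^ (4 * s) * Real.exp ((n : ℝ) ^ (4 / 5 : ℝ)) *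
        ((A.card : ℝ) / ((2 * m).factorial : ℝ))) := by
        calc _ = b ^ 2 * ((k : ℝ) ^ n) ^ 2 := mul_one _
          _ ≤ _ := h1
          _ = _ := by ring
      exact le_of_mul_le_mul_left h4 hbk
    rw [one_div, inv_mul_eq_div, div_le_iff₀ (by positivity)]
    have h5 : ((2 * m).factorial : ℝ) * 1 ≤ ((2 * m).factorial : ℝ) *
        (64 * (k : ℝ) ^ (4 * s) * Real.exp ((n : ℝ) ^ (4 / 5 : ℝ)) *
        ((A.card : ℝ) / ((2 * m).factorial : ℝ))) := mul_le_mul_of_nonneg_left h3 hF.le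
    have h6 : ((2 * m).factorial : ℝ) *
        (64 * (k : ℝ) ^ (4 * s) * Real.exp ((n : ℝ) ^ (4 / 5 : ℝ)) *
        ((A.card : ℝ) / ((2 * m).factorial : ℝ))) =
        (A.card : ℝ) * (64 * (k : ℝ) ^ (4 * s) * Real.exp ((n : ℝ) ^ (4 / 5 : ℝ))) := by
      field_simp
    linarith
  have hk4 : (0 : ℝ) < (k : ℝ) ^ (4 * s) := by positivity
  have hE : (0 : ℝ) < Real.exp ((n : ℝ) ^ (4 / 5 : ℝ)) := Real.exp_pos _
  refine ⟨A, ?_, ?_⟩
  · refine le_trans ?_ hAc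
    refine mul_le_mul_of_nonneg_right ?_ hF.le
    rw [Real.exp_neg, one_div]
    exact inv_anti₀ (by positivity) e3
  · intro π hπ
    have h1 : c ≤ X π := (mem_filter.1 hπ).2
    refine le_trans ?_ (h1.trans (hXc π))
    rw [hc, Real.exp_neg]
    have h2 : 8 * (k : ℝ) ^ (2 * s) ≤ Real.exp ((n : ℝ) ^ (17 / 20 : ℝ)) := by
      refine le_trans ?_ e3
      have h3 : (1 : ℝ) ≤ Real.exp ((n : ℝ) ^ (4 / 5 : ℝ)) := Real.one_le_exp (by positivity)
      have h4 : (k : ℝ) ^ (2 * s) ≤ (k : ℝ) ^ (4 * s) :=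
        pow_le_pow_right₀ (by linarith) (by omega)
      calc 8 * (k : ℝ) ^ (2 * s) ≤ 64 * (k : ℝ) ^ (4 * s) := by
            have : (0 : ℝ) ≤ (k : ℝ) ^ (4 * s) := hk4.le
            linarith
        _ = 64 * (k : ℝ) ^ (4 * s) * 1 := by ring
        _ ≤ _ := by gcongr
    have h5 : (Real.exp ((n : ℝ) ^ (17 / 20 : ℝ)))⁻¹ ≤ (8 * (k : ℝ) ^ (2 * s))⁻¹ :=
      inv_anti₀ (by positivity) h2
    calc b * ((k : ℝ) ^ n * (Real.exp ((n : ℝ) ^ (17 / 20 : ℝ)))⁻¹)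
        ≤ b * ((k : ℝ) ^ n * (8 * (k : ℝ) ^ (2 * s))⁻¹) := by gcongr
      _ = _ := by rw [div_eq_mul_inv]; ring

end Run7.h932.DS
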