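import Pool.Agent.Run7.h932.DS.Stm2

set_option autoImplicit false

/-!
# Project DS: many edges can be added to a graph with few edges
-/

namespace Run7.h932.DS

open Finset Classical

/-- the vertices at distance at most `i` from `x` -/
noncomputable def near {n : ℕ} (G : SimpleGraph (Fin n)) : ℕ → Fin n → Finset (Fin n)
  | 0, x => {x}
  | (i + 1), x => {x} ∪ (univ.filter fun z => G.Adj x z).biUnion (near G i)

theorem near_self {n : ℕ} (G : SimpleGraph (Fin n)) (i : ℕ) (x : Fin n) : x ∈ near G i x := by
  cases i with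
  | zero => simp [near]
  | succ i => simp [near]

theorem near_card {n : ℕ} (G : SimpleGraph (Fin n)) (Δ : ℕ) (hG : ∀ x, dgs G x ≤ Δ) (i : ℕ) :
    ∀ x, (near G i x).card ≤ (Δ + 1) ^ i := by
  induction i with
  | zero => intro x; simp [near]
  | succ i ih =>
    intro x
    have h1 : ((univ.filter fun z => G.Adj x z).biUnion (near G i)).card ≤ Δ * (Δ + 1) ^ i := by
      refine (card_biUnion_le_card_mul _ _ ((Δ + 1) ^ i) (fun z _ => ih z)).trans ?_
      exact Nat.mul_le_mul_right _ (hG x)
    have h2 := card_union_le ({x} : Finset (Fin n))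
      ((univ.filter fun z => G.Adj x z).biUnion (near G i))
    rw [card_singleton] at h2
    have h3 : 1 ≤ (Δ + 1) ^ i := Nat.one_le_pow _ _ (Nat.succ_pos _)
    have h4 : (Δ + 1) ^ (i + 1) = Δ * (Δ + 1) ^ i + (Δ + 1) ^ i := by ring
    rw [h4]
    show (({x} : Finset (Fin n)) ∪ (univ.filter fun z => G.Adj x z).biUnion (near G i)).card ≤ _
    omega

theorem near_walk {n : ℕ} (G : SimpleGraph (Fin n)) {x y : Fin n} (w : G.Walk x y) :
    ∀ i, w.length ≤ i → y ∈ near G i x := by
  induction w with
  | nil => intro i _; exact near_self G i _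
  | @cons u v t h p ih =>
    intro i hi
    cases i with
    | zero => simp at hi
    | succ i =>
      rw [SimpleGraph.Walk.length_cons] at hi
      have := ih i (by omega)
      refine mem_union_right _ (mem_biUnion.2 ⟨v, mem_filter.2 ⟨mem_univ _, h⟩, this⟩)

/-- a trail through the edge `e` is a walk to one end, `e`, and a walk from the other end -/
theorem split_at {V : Type} {G : SimpleGraph V} (e : Sym2 V) {u v : V} (w : G.Walk u v) :
    e ∈ w.edges → w.edges.Nodup → ∃ (s t : V) (w1 : G.Walk u s) (w2 : G.Walk t v),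
      s(s, t) = e ∧ w1.length + w2.length + 1 = w.length ∧ e ∉ w1.edges ∧ e ∉ w2.edges := by
  induction w with
  | nil => intro h; simp at h
  | @cons a b c h p ih =>
    intro he hnd
    rw [SimpleGraph.Walk.edges_cons] at he hnd
    rw [List.nodup_cons] at hnd
    by_cases h1 : s(a, b) = e
    · refine ⟨a, b, SimpleGraph.Walk.nil, p, h1, ?_, by simp, ?_⟩
      · simp
      · rw [← h1]; exact hnd.1
    · have h2 : e ∈ p.edges := by
        rcases List.mem_cons.1 he with h3 | h3
        · exact absurd h3.symm h1
        · exact h3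
      obtain ⟨s, t, w1, w2, a1, a2, a3, a4⟩ := ih h2 hnd.2
      refine ⟨s, t, SimpleGraph.Walk.cons h w1, w2, a1, ?_, ?_, a4⟩
      · simp only [SimpleGraph.Walk.length_cons]; omega
      · rw [SimpleGraph.Walk.edges_cons, List.mem_cons]
        rintro (h3 | h3)
        · exact h1 h3.symm
        · exact a3 h3

theorem dgs_le_of {n : ℕ} (G : SimpleGraph (Fin n)) (v : Fin n) (S : Finset (Fin n))
    (h : ∀ z, G.Adj v z → z ∈ S) : dgs G v ≤ S.card :=
  card_le_card (fun z hz => h z (mem_filter.1 hz).2)

theorem add_edge {n g Δ : ℕ} (G : SimpleGraph (Fin n)) (hG : ClsMax g Δ G) (x y : Fin n)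
    (hx : dgs G x < Δ) (hy : dgs G y < Δ) (hxy : y ∉ near G (g + 1) x) :
    ClsMax g Δ (G ⊔ SimpleGraph.edge x y) := by
  obtain ⟨hg, hd⟩ := hG
  have hE : ∀ e ∈ (G ⊔ SimpleGraph.edge x y).edgeSet, e ≠ s(x, y) → e ∈ G.edgeSet := by
    intro e
    refine Sym2.ind (fun a b => ?_) e
    intro h1 h2
    rw [SimpleGraph.mem_edgeSet, SimpleGraph.sup_adj] at h1
    rcases h1 with h1 | h1
    · exact h1
    · rw [SimpleGraph.edge_adj] at h1
      exfalso; apply h2
      rw [Sym2.eq_iff]; exact h1.1
  constructor
  · intro a c hc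
    by_contra hlen
    rw [not_lt] at hlen
    by_cases he : s(x, y) ∈ c.edges
    · obtain ⟨s, t, w1, w2, a1, a2, a3, a4⟩ := split_at s(x, y) c he hc.edges_nodup
      have h1 : ∀ e ∈ (w2.append w1).edges, e ∈ G.edgeSet := by
        intro e h
        apply hE e
        · exact SimpleGraph.Walk.edges_subset_edgeSet _ h
        · rintro rfl
          rw [SimpleGraph.Walk.edges_append, List.mem_append] at h
          rcases h with h | h
          · exact a4 h
          · exact a3 h
      have h2 : ((w2.append w1).transfer G h1).length ≤ g + 1 := by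
        rw [SimpleGraph.Walk.length_transfer, SimpleGraph.Walk.length_append]; omega
      rcases Sym2.eq_iff.1 a1 with ⟨rfl, rfl⟩ | ⟨rfl, rfl⟩
      · apply hxy
        refine near_walk G ((w2.append w1).transfer G h1).reverse (g + 1) ?_
        rw [SimpleGraph.Walk.length_reverse]; exact h2
      · exact hxy (near_walk G _ (g + 1) h2)
    · have h1 : ∀ e ∈ c.edges, e ∈ G.edgeSet := by
        intro e h
        apply hE e
        · exact SimpleGraph.Walk.edges_subset_edgeSet _ h
        · rintro rfl; exact he h
      have h2 := hg a (c.transfer G h1) (hc.transfer h1)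
      rw [SimpleGraph.Walk.length_transfer] at h2
      omega
  · intro u
    have key : ∀ v w : Fin n, dgs G v < Δ → (∀ z, (G ⊔ SimpleGraph.edge x y).Adj v z →
        G.Adj v z ∨ z = w) → dgs (G ⊔ SimpleGraph.edge x y) v ≤ Δ := by
      intro v w hv h
      have h1 := dgs_le_of (G ⊔ SimpleGraph.edge x y) v
          (insert w (univ.filter fun z => G.Adj v z)) (by
        intro z hz
        rw [mem_insert, mem_filter]
        rcases h z hz with h2 | h2
        · exact Or.inr ⟨mem_univ _, h2⟩
        · exact Or.inl h2)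
      have h2 := h1.trans (card_insert_le _ _)
      have h3 : (univ.filter fun z => G.Adj v z).card < Δ := hv
      omega
    by_cases h1 : u = x
    · rw [h1]
      refine key x y hx (fun z hz => ?_)
      rw [SimpleGraph.sup_adj, SimpleGraph.edge_adj] at hz
      rcases hz with hz | ⟨⟨-, hz⟩ | ⟨h2, h3⟩, h4⟩
      · exact Or.inl hz
      · exact Or.inr hz
      · exact absurd h3.symm h4
    · by_cases h2 : u = y
      · rw [h2]
        refine key y x hy (fun z hz => ?_)
        rw [SimpleGraph.sup_adj, SimpleGraph.edge_adj] at hz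
        rcases hz with hz | ⟨⟨h3, h5⟩ | ⟨-, hz⟩, h4⟩
        · exact Or.inl hz
        · exact absurd h5.symm h4
        · exact Or.inr hz
      · refine le_trans (dgs_le_of _ u (univ.filter fun z => G.Adj u z) ?_) (hd u)
        intro z hz
        refine mem_filter.2 ⟨mem_univ _, ?_⟩
        rw [SimpleGraph.sup_adj, SimpleGraph.edge_adj] at hz
        rcases hz with hz | ⟨⟨h3, -⟩ | ⟨h3, -⟩, h4⟩
        · exact hz
        · exact absurd h3 h1
        · exact absurd h3 h2

theorem t_ADD : S_ADD := by
  intro g Δ hΔ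
  set M : ℕ := (Δ + 1) ^ (g + 1) with hM
  refine ⟨16 * (M + 1), fun n hn G hG hsum => ?_⟩
  set H : Finset (Fin n) := univ.filter fun x => dgs G x < Δ with hH
  set A : Finset (Fin n × Fin n) := (H ×ˢ H).filter fun z => z.1 < z.2 with hA
  set A' : Finset (Fin n × Fin n) := (H ×ˢ H).filter fun z => z.2 < z.1 with hA'
  -- at least half of the vertices are low
  have hHc : n ≤ 2 * H.card := by
    have h1 : H.card + (univ.filter fun x => ¬ dgs G x < Δ).card = n := by
      have := card_filter_add_card_filter_not (s := (univ : Finset (Fin n)))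
        (fun x => dgs G x < Δ)
      rw [card_univ, Fintype.card_fin] at this
      exact this
    have h2 : 3 * (univ.filter fun x => ¬ dgs G x < Δ).card ≤ ∑ x, dgs G x := by
      calc 3 * (univ.filter fun x => ¬ dgs G x < Δ).card
          = ∑ x ∈ univ.filter fun x => ¬ dgs G x < Δ, 3 := by
            rw [sum_const, smul_eq_mul, mul_comm]
        _ ≤ ∑ x ∈ univ.filter fun x => ¬ dgs G x < Δ, dgs G x := by
            refine sum_le_sum (fun x hx => ?_)
            have := (mem_filter.1 hx).2
            omega
        _ ≤ ∑ x, dgs G x := sum_le_sum_of_subset (filter_subset _ _)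
    omega
  -- the number of the pairs
  have hAA : A.card = A'.card := by
    refine card_bij' (fun z _ => z.swap) (fun z _ => z.swap) ?_ ?_ ?_ ?_
    · intro z hz
      rw [hA, mem_filter, mem_product] at hz
      rw [hA', mem_filter, mem_product]
      exact ⟨⟨hz.1.2, hz.1.1⟩, hz.2⟩
    · intro z hz
      rw [hA', mem_filter, mem_product] at hz
      rw [hA, mem_filter, mem_product]
      exact ⟨⟨hz.1.2, hz.1.1⟩, hz.2⟩
    · intro z _; exact Prod.swap_swap z
    · intro z _; exact Prod.swap_swap z
  have hcard : H.card * H.card ≤ A.card + A'.card + H.card := by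
    have h1 : H ×ˢ H ⊆ A ∪ A' ∪ H.image (fun x => (x, x)) := by
      intro z hz
      rw [mem_union, mem_union, hA, hA', mem_filter, mem_filter, mem_image]
      rcases lt_trichotomy z.1 z.2 with h | h | h
      · exact Or.inl (Or.inl ⟨hz, h⟩)
      · exact Or.inr ⟨z.1, (mem_product.1 hz).1, Prod.ext rfl h⟩
      · exact Or.inl (Or.inr ⟨hz, h⟩)
    have h2 := card_le_card h1
    rw [card_product] at h2
    refine h2.trans ?_
    refine (card_union_le _ _).trans ?_
    exact Nat.add_le_add (card_union_le _ _) card_image_le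
  -- the near pairs
  set B : Finset (Fin n × Fin n) := univ.filter fun z => z.2 ∈ near G (g + 1) z.1 with hB
  have hBc : B.card ≤ n * M := by
    have h1 : B ⊆ (univ : Finset (Fin n)).biUnion
        (fun x => (near G (g + 1) x).image (fun y => (x, y))) := by
      intro z hz
      rw [hB, mem_filter] at hz
      exact mem_biUnion.2 ⟨z.1, mem_univ _, mem_image.2 ⟨z.2, hz.2, rfl⟩⟩
    refine (card_le_card h1).trans ?_
    refine (card_biUnion_le_card_mul _ _ M (fun x _ => ?_)).trans ?_
    · exact card_image_le.trans (near_card G Δ hG.2 (g + 1) x)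
    · rw [card_univ, Fintype.card_fin]
  -- the good pairs
  have hsub : A \ B ⊆ (univ.filter fun z : Fin n × Fin n => z.1 < z.2 ∧ ¬ G.Adj z.1 z.2 ∧
      ClsMax g Δ (G ⊔ SimpleGraph.edge z.1 z.2)) := by
    intro z hz
    rw [mem_sdiff, hA, hB, mem_filter, mem_filter, mem_product, hH, mem_filter, mem_filter] at hz
    obtain ⟨⟨⟨⟨-, h1⟩, -, h2⟩, h3⟩, h4⟩ := hz
    have h4 : z.2 ∉ near G (g + 1) z.1 := fun h => h4 ⟨mem_univ _, h⟩
    rw [mem_filter]
    refine ⟨mem_univ _, h3, fun h => h4 ?_, add_edge G hG _ _ h1 h2 h4⟩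
    exact near_walk G (SimpleGraph.Walk.cons h SimpleGraph.Walk.nil) (g + 1) (by simp)
  have h5 := card_le_card hsub
  have h6 : A.card ≤ (A \ B).card + B.card := by
    have := card_le_card (show A ⊆ (A \ B) ∪ B by
      intro z hz
      rw [mem_union, mem_sdiff]
      by_cases h : z ∈ B
      · exact Or.inr h
      · exact Or.inl ⟨hz, h⟩)
    exact this.trans (card_union_le _ _)
  have h7 : H.card * H.card ≤ 2 * (A \ B).card + 2 * (n * M) + H.card := by omega
  have h8 : H.card ≤ n := by
    have := card_le_univ H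
    rwa [Fintype.card_fin] at this
  refine le_trans ?_ (Nat.mul_le_mul_left 32 h5)
  have h9 : n * n ≤ 4 * (H.card * H.card) := by nlinarith
  have h10 : n * (16 * (M + 1)) ≤ n * n := Nat.mul_le_mul_left n hn
  nlinarith

end Run7.h932.DS
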