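import Pool.Agent.Run7.h932.DS.FIN
import Pool.Agent.Run7.h932.RG.Res

set_option autoImplicit false

namespace Run7.h932.DS

open Finset Classical Filter

/-- the class of the graphs -/
def Cls {n : ℕ} (g : ℕ) (d : Fin n → ℕ) (G : SimpleGraph (Fin n)) : Prop :=
  GirthGt G g ∧ Deg G d

/-- the property -/
def AllQ {V : Type} (ε η : ℝ) (Δ : ℕ) (G : SimpleGraph V) : Prop :=
  ∀ q : ℕ, (1 / 2 + ε) * (Δ / Real.log Δ) ≤ q → RG.Bound G q η

theorem even_of_deg {n : ℕ} {d : Fin n → ℕ} {G : SimpleGraph (Fin n)} (h : Deg G d) :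
    Even (∑ x, d x) := by
  have h1 : ∀ x, d x = G.degree x := by
    intro x
    rw [← h x, ← SimpleGraph.card_neighborFinset_eq_degree]
    congr 1
    ext y
    simp
  rw [Finset.sum_congr rfl fun x _ => h1 x, SimpleGraph.sum_degrees_eq_twice_card_edges]
  exact even_two_mul _

theorem cliqueFree_of_girth {V : Type} {G : SimpleGraph V} {g : ℕ} (hg : 3 ≤ g)
    (h : GirthGt G g) : G.CliqueFree 3 := by
  intro s hs
  obtain ⟨u, w, hw, hl⟩ := SimpleGraph.is3Clique_iff_exists_cycle_length_three.1 ⟨s, hs⟩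
  have := h u w hw
  omega

theorem count_nice (hN1 : S_NICE1) (hN2 : S_NICE2) {n m L F : ℕ} (hL : 1 ≤ L)
    (v : HE m → Fin n) (hF : ∀ G : SimpleGraph (Fin n), Deg G (cnt v) →
      (univ.filter fun π : Equiv.Perm (HE m) => Rep v π G).card = F)
    (P : SimpleGraph (Fin n) → Prop) :
    (univ.filter fun π : Equiv.Perm (HE m) => Nice v π L ∧ P (gr v π)).card =
      F * (univ.filter fun G : SimpleGraph (Fin n) => Cls (L + 1) (cnt v) G ∧ P G).card := by
  have h := Finset.card_eq_sum_card_fiberwise (f := gr v)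
    (s := univ.filter fun π : Equiv.Perm (HE m) => Nice v π L ∧ P (gr v π))
    (t := univ.filter fun G : SimpleGraph (Fin n) => Cls (L + 1) (cnt v) G ∧ P G)
    (fun π hπ => by
      have hπ' := (mem_filter.1 (mem_coe.1 hπ)).2
      obtain ⟨-, h2, h3, -⟩ := hN1 n m L v π hL hπ'.1
      exact mem_coe.2 (mem_filter.2 ⟨mem_univ _, ⟨h3, h2⟩, hπ'.2⟩))
  rw [h, Finset.sum_congr rfl (g := fun _ => F), Finset.sum_const, smul_eq_mul, mul_comm]
  intro G hG
  obtain ⟨⟨h3, h2⟩, h4⟩ := (mem_filter.1 hG).2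
  rw [← hF G h2]
  congr 1
  ext π
  simp only [mem_filter, mem_univ, true_and]
  constructor
  · rintro ⟨⟨a1, a2⟩, a3⟩
    have := (hN1 n m L v π hL a1).1
    rw [a3] at this
    exact this
  · intro a
    obtain ⟨b1, b2⟩ := hN2 n m L v π G a h2 h3
    exact ⟨⟨b1, by rw [b2]; exact h4⟩, b2⟩

theorem main_deg (hFIN : S_FIN) (hSW : S_SW) (hN1 : S_NICE1) (hN2 : S_NICE2) (hREP : S_REP)
    (hCOL : S_COL) (hEXV : S_EXV) (ε η K : ℝ) (hε : 0 < ε) (hη : 0 < η) (hη1 : η < 1)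
    (hK : 0 < K) :
    ∃ Δ₀ : ℕ, ∀ Δ g : ℕ, Δ₀ ≤ Δ → 3 ≤ g → ∃ n₀ : ℕ, ∀ n : ℕ, n₀ ≤ n → ∀ d : Fin n → ℕ,
      (∀ x, d x ≤ Δ) → n ≤ ∑ x, d x →
      (Even (∑ x, d x) → ∃ G, Cls g d G) ∧
      ((univ.filter fun G : SimpleGraph (Fin n) => Cls g d G ∧ ¬ AllQ ε η Δ G).card : ℝ) ≤
        (n : ℝ) ^ (-K) * ((univ.filter fun G : SimpleGraph (Fin n) => Cls g d G).card : ℝ) := by
  obtain ⟨Δ₁, hFIN⟩ := hFIN ε η (K + 2) hε hη hη1 (by linarith)
  refine ⟨Δ₁, fun Δ g hΔ hg => ?_⟩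
  have hq : ∀ q : ℕ, ∃ n₁ : ℕ, (1 / 2 + ε) * (Δ / Real.log Δ) ≤ q → ∀ n m : ℕ, n₁ ≤ n →
      n ≤ 2 * m → ∀ v : HE m → Fin n, (∀ x, cnt v x ≤ Δ) →
      ((univ.filter fun π : Equiv.Perm (HE m) => (∀ j, v (π (j, false)) ≠ v (π (j, true))) ∧
        ¬ ((1 - 1 / (q : ℝ)) ^ m * ((1 - η) * q) ^ n ≤ ((cols q v π).card : ℝ))).card : ℝ) ≤
      (n : ℝ) ^ (-(K + 2)) * ((2 * m).factorial : ℝ) := by
    intro q
    by_cases hc : (1 / 2 + ε) * (Δ / Real.log Δ) ≤ q
    · obtain ⟨n₁, h⟩ := hFIN Δ q hΔ hc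
      exact ⟨n₁, fun _ => h⟩
    · exact ⟨0, fun h => absurd h hc⟩
  choose N₀ hN₀ using hq
  obtain ⟨c, m₀, hc, hSW⟩ := hSW (g - 1) Δ
  set Q₁ : ℕ := 10 * Δ + ⌈1 / (η * (1 - η))⌉₊ + 2 with hQ₁
  refine ⟨max ((range Q₁).sup N₀) (max (2 * m₀) (⌈(Q₁ : ℝ) / c⌉₊ + 1)), fun n hn d hd hdn => ?_⟩
  have hn₁ : ∀ q, q < Q₁ → N₀ q ≤ n := fun q hq =>
    (Finset.le_sup (f := N₀) (mem_range.2 hq)).trans ((le_max_left _ _).trans hn)
  have hn₂ : 2 * m₀ ≤ n := ((le_max_left _ _).trans (le_max_right _ _)).trans hn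
  have hn₃ : ⌈(Q₁ : ℝ) / c⌉₊ + 1 ≤ n := ((le_max_right _ _).trans (le_max_right _ _)).trans hn
  have hn1 : 1 ≤ n := by omega
  have hnR : (1 : ℝ) ≤ n := by exact_mod_cast hn1
  have hn0 : (0 : ℝ) < n := by linarith
  have hnQ : (Q₁ : ℝ) / c ≤ n := by
    have h1 : (Q₁ : ℝ) / c ≤ ⌈(Q₁ : ℝ) / c⌉₊ := Nat.le_ceil _
    have h2 : ((⌈(Q₁ : ℝ) / c⌉₊ : ℕ) : ℝ) ≤ n := by
      have : ⌈(Q₁ : ℝ) / c⌉₊ ≤ n := by omega
      exact_mod_cast this
    exact h1.trans h2
  by_cases hev : Even (∑ x, d x)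
  · obtain ⟨m, hm⟩ := hev
    have hm2 : ∑ x, d x = 2 * m := by omega
    obtain ⟨v, hv⟩ := hEXV n m d hm2
    have hvd : cnt v = d := funext hv
    have hvΔ : ∀ x, cnt v x ≤ Δ := fun x => by rw [hv]; exact hd x
    have hnm : n ≤ 2 * m := by
      rw [← hm2]
      exact hdn
    have hm₀ : m₀ ≤ m := by omega
    have hNice := hSW n m v hm₀ hvΔ
    have hFpos : (0 : ℝ) < ((2 * m).factorial : ℝ) := by exact_mod_cast Nat.factorial_pos _
    obtain ⟨F, hF⟩ := hREP n m v
    have hgL : g - 1 + 1 = g := by omega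
    have hcount := count_nice hN1 hN2 (L := g - 1) (by omega) v hF
    have hc1 := hcount (fun _ => True)
    simp only [and_true] at hc1
    rw [hgL, hvd] at hc1
    have hc2 := hcount (fun G => ¬ AllQ ε η Δ G)
    rw [hgL, hvd] at hc2
    have hNpos : 0 < (univ.filter fun π : Equiv.Perm (HE m) => Nice v π (g - 1)).card := by
      have : (0 : ℝ) < ((univ.filter fun π : Equiv.Perm (HE m) => Nice v π (g - 1)).card : ℝ) :=
        lt_of_lt_of_le (by positivity) hNice
      exact_mod_cast this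
    have hFp : 0 < F := by
      rcases Nat.eq_zero_or_pos F with h | h
      · rw [hc1, h, zero_mul] at hNpos; exact absurd hNpos (lt_irrefl _)
      · exact h
    have hFR : (0 : ℝ) < F := by exact_mod_cast hFp
    constructor
    · intro _
      obtain ⟨π, hπ⟩ := Finset.card_pos.1 hNpos
      have hπ' := (mem_filter.1 hπ).2
      obtain ⟨-, h2, h3, -⟩ := hN1 n m (g - 1) v π (by omega) hπ'
      rw [hgL] at h3
      rw [hvd] at h2
      exact ⟨gr v π, h3, h2⟩
    · -- bad pairings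
      have hsub : (univ.filter fun π : Equiv.Perm (HE m) => Nice v π (g - 1) ∧
          ¬ AllQ ε η Δ (gr v π)) ⊆ ((range Q₁).filter fun q : ℕ =>
            (1 / 2 + ε) * (Δ / Real.log Δ) ≤ q).biUnion fun q =>
          univ.filter fun π : Equiv.Perm (HE m) => (∀ j, v (π (j, false)) ≠ v (π (j, true))) ∧
          ¬ ((1 - 1 / (q : ℝ)) ^ m * ((1 - η) * q) ^ n ≤ ((cols q v π).card : ℝ)) := by
        intro π hπ
        obtain ⟨h1, h2⟩ := (mem_filter.1 hπ).2
        obtain ⟨r1, r2, r3, r4⟩ := hN1 n m (g - 1) v π (by omega) h1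
        have hloop : ∀ j, v (π (j, false)) ≠ v (π (j, true)) := fun j => (r1.1 j).ne
        unfold AllQ at h2
        push Not at h2
        obtain ⟨q, hq1, hq2⟩ := h2
        have hqQ : q < Q₁ := by
          by_contra hcon
          apply hq2
          have hcf : (gr v π).CliqueFree 3 := cliqueFree_of_girth (g := g - 1 + 1) (by omega) r3
          refine RG.large_q η hη hη1 _ _ hcf Δ q (fun x => ?_) (by omega) ?_ (by omega)
          · have := r2 x
            rw [Nat.card_coe_set_eq, ← RG.filter_adj]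
            have h5 : (univ.filter fun y => (gr v π).Adj x y).card ≤ Δ := by
              rw [this]; exact hvΔ x
            convert h5
          · have h5 : 1 / (η * (1 - η)) ≤ (⌈1 / (η * (1 - η))⌉₊ : ℝ) := Nat.le_ceil _
            have h6 : ((⌈1 / (η * (1 - η))⌉₊ : ℕ) : ℝ) ≤ q := by
              have : ⌈1 / (η * (1 - η))⌉₊ ≤ q := by omega
              exact_mod_cast this
            exact h5.trans h6
        rw [mem_biUnion]
        refine ⟨q, mem_filter.2 ⟨mem_range.2 hqQ, hq1⟩, mem_filter.2 ⟨mem_univ _, hloop, ?_⟩⟩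
        intro hcon
        apply hq2
        unfold RG.Bound
        rw [r4, Nat.card_eq_fintype_card (α := Fin n), Fintype.card_fin, ← hCOL n m q v π hloop]
        exact hcon
      have hb1 : ((univ.filter fun π : Equiv.Perm (HE m) => Nice v π (g - 1) ∧
          ¬ AllQ ε η Δ (gr v π)).card : ℝ) ≤
          Q₁ * ((n : ℝ) ^ (-(K + 2)) * ((2 * m).factorial : ℝ)) := by
        have h1 := (Finset.card_le_card hsub).trans Finset.card_biUnion_le
        have h2 : ((univ.filter fun π : Equiv.Perm (HE m) => Nice v π (g - 1) ∧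
          ¬ AllQ ε η Δ (gr v π)).card : ℝ) ≤ ∑ q ∈ (range Q₁).filter fun q : ℕ =>
            (1 / 2 + ε) * (Δ / Real.log Δ) ≤ q,
            ((univ.filter fun π : Equiv.Perm (HE m) =>
              (∀ j, v (π (j, false)) ≠ v (π (j, true))) ∧
          ¬ ((1 - 1 / (q : ℝ)) ^ m * ((1 - η) * q) ^ n ≤ ((cols q v π).card : ℝ))).card : ℝ) := by
          exact_mod_cast h1
        refine h2.trans ?_
        have h3 : ∀ q ∈ (range Q₁).filter fun q : ℕ => (1 / 2 + ε) * (Δ / Real.log Δ) ≤ q,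
            ((univ.filter fun π : Equiv.Perm (HE m) =>
              (∀ j, v (π (j, false)) ≠ v (π (j, true))) ∧
          ¬ ((1 - 1 / (q : ℝ)) ^ m * ((1 - η) * q) ^ n ≤ ((cols q v π).card : ℝ))).card : ℝ) ≤
          (n : ℝ) ^ (-(K + 2)) * ((2 * m).factorial : ℝ) := by
          intro q hq
          obtain ⟨hq1, hq2⟩ := mem_filter.1 hq
          exact hN₀ q hq2 n m (hn₁ q (mem_range.1 hq1)) hnm v hvΔ
        refine (Finset.sum_le_sum h3).trans ?_
        rw [Finset.sum_const, nsmul_eq_mul]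
        refine mul_le_mul_of_nonneg_right ?_ (by positivity)
        have h4 : ((range Q₁).filter fun q : ℕ => (1 / 2 + ε) * (Δ / Real.log Δ) ≤ q).card ≤ Q₁ :=
          (Finset.card_filter_le _ _).trans (by rw [card_range])
        exact_mod_cast h4
      have hb2 : (Q₁ : ℝ) * ((n : ℝ) ^ (-(K + 2)) * ((2 * m).factorial : ℝ)) ≤
          (n : ℝ) ^ (-K) * (c * ((2 * m).factorial : ℝ)) := by
        have e : (n : ℝ) ^ (-K) = (n : ℝ) ^ (-(K + 2)) * (n : ℝ) ^ (2 : ℝ) := by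
          rw [← Real.rpow_add hn0]; congr 1; ring
        have e2 : (n : ℝ) ^ (2 : ℝ) = n * n := by
          rw [show (2 : ℝ) = ((2 : ℕ) : ℝ) by norm_num, Real.rpow_natCast]; ring
        rw [e, e2]
        have h1 : (Q₁ : ℝ) ≤ n * c := by rwa [div_le_iff₀ hc] at hnQ
        have h2 : (n : ℝ) * c ≤ n * n * c := by
          have : (n : ℝ) * 1 ≤ n * n := by gcongr
          nlinarith
        have h3 : (0 : ℝ) ≤ (n : ℝ) ^ (-(K + 2)) * ((2 * m).factorial : ℝ) := by positivity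
        nlinarith [mul_le_mul_of_nonneg_right (h1.trans h2) h3]
      have hb3 : (F : ℝ) * ((univ.filter fun G : SimpleGraph (Fin n) => Cls g d G ∧
          ¬ AllQ ε η Δ G).card : ℝ) ≤
          (n : ℝ) ^ (-K) * ((F : ℝ) *
            ((univ.filter fun G : SimpleGraph (Fin n) => Cls g d G).card : ℝ)) := by
        have h1 : (F : ℝ) * ((univ.filter fun G : SimpleGraph (Fin n) => Cls g d G ∧
          ¬ AllQ ε η Δ G).card : ℝ) = ((univ.filter fun π : Equiv.Perm (HE m) =>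
            Nice v π (g - 1) ∧ ¬ AllQ ε η Δ (gr v π)).card : ℝ) := by
          rw [← Nat.cast_mul]
          refine congrArg _ ?_
          convert hc2.symm
        have h2 : (F : ℝ) * ((univ.filter fun G : SimpleGraph (Fin n) => Cls g d G).card : ℝ) =
            ((univ.filter fun π : Equiv.Perm (HE m) => Nice v π (g - 1)).card : ℝ) := by
          rw [← Nat.cast_mul]
          refine congrArg _ ?_
          convert hc1.symm
        rw [h1, h2]
        refine hb1.trans (hb2.trans ?_)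
        exact mul_le_mul_of_nonneg_left hNice (by positivity)
      have h4 : (F : ℝ) * ((univ.filter fun G : SimpleGraph (Fin n) => Cls g d G ∧
          ¬ AllQ ε η Δ G).card : ℝ) ≤ (F : ℝ) * ((n : ℝ) ^ (-K) *
            ((univ.filter fun G : SimpleGraph (Fin n) => Cls g d G).card : ℝ)) := by
        linarith
      exact le_of_mul_le_mul_left h4 hFR
  · refine ⟨fun h => absurd h hev, ?_⟩
    have h1 : (univ.filter fun G : SimpleGraph (Fin n) => Cls g d G ∧ ¬ AllQ ε η Δ G) = ∅ := by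
      rw [Finset.filter_eq_empty_iff]
      rintro G - ⟨⟨-, h⟩, -⟩
      exact hev (even_of_deg h)
    rw [h1]
    simp only [card_empty, Nat.cast_zero]
    positivity

/-- the degrees of a graph -/
noncomputable def dgs {n : ℕ} (G : SimpleGraph (Fin n)) (x : Fin n) : ℕ :=
  (univ.filter fun y => G.Adj x y).card

/-- the class of all graphs -/
def ClsAll {n : ℕ} (g Δ : ℕ) (G : SimpleGraph (Fin n)) : Prop :=
  GirthGt G g ∧ (∀ x, dgs G x ≤ Δ) ∧ n ≤ ∑ x, dgs G x

theorem all_of {n g Δ : ℕ} (P : SimpleGraph (Fin n) → Prop) (κ : ℝ)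
    (h : ∀ d : Fin n → ℕ, (∀ x, d x ≤ Δ) → n ≤ ∑ x, d x →
      ((univ.filter fun G : SimpleGraph (Fin n) => Cls g d G ∧ P G).card : ℝ) ≤
        κ * ((univ.filter fun G : SimpleGraph (Fin n) => Cls g d G).card : ℝ)) :
    ((univ.filter fun G : SimpleGraph (Fin n) => ClsAll g Δ G ∧ P G).card : ℝ) ≤
        κ * ((univ.filter fun G : SimpleGraph (Fin n) => ClsAll g Δ G).card : ℝ) := by
  set T : Finset (Fin n → ℕ) := (Fintype.piFinset fun _ : Fin n => range (Δ + 1)).filter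
    fun d => n ≤ ∑ x, d x with hT
  have hmem : ∀ G : SimpleGraph (Fin n), ClsAll g Δ G → dgs G ∈ T := by
    intro G hG
    rw [hT, mem_filter, Fintype.mem_piFinset]
    exact ⟨fun x => mem_range.2 (Nat.lt_succ_of_le (hG.2.1 x)), hG.2.2⟩
  have hfib : ∀ (Q : SimpleGraph (Fin n) → Prop),
      (univ.filter fun G : SimpleGraph (Fin n) => ClsAll g Δ G ∧ Q G).card =
      ∑ d ∈ T, (univ.filter fun G : SimpleGraph (Fin n) => Cls g d G ∧ Q G).card := by
    intro Q
    have h1 := Finset.card_eq_sum_card_fiberwise (f := dgs)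
      (s := univ.filter fun G : SimpleGraph (Fin n) => ClsAll g Δ G ∧ Q G) (t := T)
      (fun G hG => mem_coe.2 (hmem G (mem_filter.1 (mem_coe.1 hG)).2.1))
    rw [h1]
    refine Finset.sum_congr rfl fun d hd => ?_
    rw [hT, mem_filter, Fintype.mem_piFinset] at hd
    congr 1
    ext G
    simp only [mem_filter, mem_univ, true_and]
    constructor
    · rintro ⟨⟨⟨a1, a2, a3⟩, a4⟩, a5⟩
      exact ⟨⟨a1, fun x => congrFun a5 x⟩, a4⟩
    · rintro ⟨⟨a1, a2⟩, a4⟩
      have a5 : dgs G = d := funext a2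
      refine ⟨⟨⟨a1, fun x => ?_, ?_⟩, a4⟩, a5⟩
      · rw [a5]; exact Nat.lt_succ_iff.1 (mem_range.1 (hd.1 x))
      · rw [a5]; exact hd.2
  have hfib2 : (univ.filter fun G : SimpleGraph (Fin n) => ClsAll g Δ G).card =
      ∑ d ∈ T, (univ.filter fun G : SimpleGraph (Fin n) => Cls g d G).card := by
    have := hfib (fun _ => True)
    simpa only [and_true] using this
  rw [hfib P, hfib2]
  push_cast
  rw [Finset.mul_sum]
  refine Finset.sum_le_sum fun d hd => ?_
  rw [hT, mem_filter, Fintype.mem_piFinset] at hd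
  exact h d (fun x => Nat.lt_succ_iff.1 (mem_range.1 (hd.1 x))) hd.2

end Run7.h932.DS
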