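import Pool.Agent.Run7.h932.DS.AA
import Pool.Agent.Run7.h932.DS.Res
import Pool.Agent.Run7.h150.DS.FWD
import Pool.Agent.Run7.h574.DS.NICE1
import Pool.Agent.Run7.h574.DS.NICE2
import Pool.Agent.Run7.h441.DS.LB
import Pool.Agent.Run7.h441.DS.DEG
import Pool.Agent.Run7.h441.DS.COL
import Pool.Agent.Run7.h228.DS.FAR
import Pool.Agent.Run7.h59.DS.UB
import Pool.Agent.Run7.h59.DS.LBC
import Pool.Agent.Run7.h594.DS.ISO
import Pool.Agent.Run7.h594.DS.SPA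
import Pool.Agent.Run7.h381.DS.EXP
import Pool.Agent.Run7.h381.DS.SEC
import Pool.Agent.Run7.h332.DS.EXV
import Pool.Agent.Run7.h332.DS.REP

set_option autoImplicit false

namespace Run7.h932.DS

open Finset Classical

theorem sec : S_SEC := Run7.h381.DS.t_SEC Pool.Agent.Run7.h59.DS.t_UB RG.mf

theorem fin_of (hSEC : S_SEC) : S_FIN :=
  t_FIN (t_AA hSEC Pool.Agent.Run7.h59.DS.LBCp.t_LBC Run7.h441.DS.t_LB Pool.Agent.Run7.h594.DS.t_BAL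
    Run7.h811.RG.t_PZ) Pool.Agent.Run7.h594.DS.t_ISO Pool.Agent.Run7.h594.DS.t_SPA
    Run7.h441.DS.t_DEG Run7.h441.DS.t_EXT Run7.h300.RG.t_NUM2

theorem main_of (hSEC : S_SEC) (hSW : S_SW) (ε η K : ℝ) (hε : 0 < ε) (hη : 0 < η) (hη1 : η < 1)
    (hK : 0 < K) :
    ∃ Δ₀ : ℕ, ∀ Δ g : ℕ, Δ₀ ≤ Δ → 3 ≤ g → ∃ n₀ : ℕ, ∀ n : ℕ, n₀ ≤ n → ∀ d : Fin n → ℕ,
      (∀ x, d x ≤ Δ) → n ≤ ∑ x, d x →
      (Even (∑ x, d x) → ∃ G, Cls g d G) ∧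
      ((univ.filter fun G : SimpleGraph (Fin n) => Cls g d G ∧ ¬ AllQ ε η Δ G).card : ℝ) ≤
        (n : ℝ) ^ (-K) * ((univ.filter fun G : SimpleGraph (Fin n) => Cls g d G).card : ℝ) :=
  main_deg (fin_of hSEC) hSW Run7.h574.DS.t_NICE1 Run7.h574.DS.t_NICE2 Run7.h332.DS.t_REP
    Run7.h441.DS.t_COL Run7.h332.DS.t_EXV ε η K hε hη hη1 hK

end Run7.h932.DS
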