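import Pool.Agent.Run7.h932.DS.Asm
import Pool.Agent.Run7.h477.DS.SW

set_option autoImplicit false

namespace Run7.h932.DS

theorem switchOk : S_SW :=
  Run7.h477.DS.t_SW Run7.h228.DS.t_FAR Pool.Agent.Run7.h150.DS.t_FWD
    (Run7.h228.DS.t_REV Run7.h228.DS.t_FAR)
    (Run7.h381.DS.t_EXP Run7.h228.DS.t_FAR (Run7.h228.DS.t_REV Run7.h228.DS.t_FAR))

end Run7.h932.DS
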