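import Pool.Agent.Run7.h932.DS.Stm

set_option autoImplicit false

namespace Run7.h932.DS

open Finset Classical Filter

theorem sum_cnt {n m : ℕ} (v : HE m → Fin n) : ∑ x, cnt v x = 2 * m := by
  unfold cnt
  have h := Finset.card_eq_sum_card_fiberwise (f := v) (s := (univ : Finset (HE m)))
    (t := (univ : Finset (Fin n))) (fun x _ => mem_coe.2 (mem_univ _))
  have h2 : (univ : Finset (HE m)).card = 2 * m := by
    rw [Finset.card_univ]; simp [HE, Fintype.card_prod, mul_comm]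
  rw [← h2, h]
  refine Finset.sum_congr rfl fun x _ => ?_
  congr 1
  ext a
  simp only [mem_filter]

theorem two_m_le {n m Δ : ℕ} (v : HE m → Fin n) (hd : ∀ x, cnt v x ≤ Δ) : 2 * m ≤ Δ * n := by
  rw [← sum_cnt v]
  calc ∑ x, cnt v x ≤ ∑ _x : Fin n, Δ := Finset.sum_le_sum fun x _ => hd x
    _ = Δ * n := by simp [mul_comm]

theorem ev_fin (K : ℝ) (Δ : ℕ) (hΔ : 1 ≤ Δ) : ∃ n₄ : ℕ, 1 ≤ n₄ ∧ ∀ n : ℕ, n₄ ≤ n →
    (n : ℝ) ^ (-(K + 1)) + Real.exp ((n : ℝ) ^ (17 / 20 : ℝ) - (n : ℝ) ^ (9 / 10 : ℝ) / (18 * Δ)) ≤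
      (n : ℝ) ^ (-K) := by
  have hΔ0 : (0 : ℝ) < Δ := by exact_mod_cast hΔ
  have t1 : Tendsto (fun n : ℕ => (n : ℝ) ^ (1 / 20 : ℝ)) atTop atTop :=
    (tendsto_rpow_atTop (by norm_num)).comp tendsto_natCast_atTop_atTop
  have t2 : Tendsto (fun n : ℕ => Real.log n / (n : ℝ) ^ (17 / 20 : ℝ)) atTop (nhds 0) := by
    have := (isLittleO_log_rpow_atTop (r := 17 / 20) (by norm_num)).tendsto_div_nhds_zero
    exact this.comp tendsto_natCast_atTop_atTop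
  obtain ⟨n₄, h4⟩ := eventually_atTop.1
    (((t1.eventually_ge_atTop (18 * Δ * (2 + |K|))).and
      (t2.eventually_le_const (u := 1 / 2) (by norm_num))).and (eventually_ge_atTop 2))
  refine ⟨max n₄ 2, le_trans (by norm_num) (le_max_right _ _), fun n hn => ?_⟩
  obtain ⟨⟨h1, h2⟩, h3⟩ := h4 n ((le_max_left _ _).trans hn)
  have hn2 : (2 : ℝ) ≤ n := by exact_mod_cast h3
  have hn0 : (0 : ℝ) < n := by linarith
  have hp : (0 : ℝ) < (n : ℝ) ^ (17 / 20 : ℝ) := by positivity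
  have hlog : Real.log n ≤ (n : ℝ) ^ (17 / 20 : ℝ) / 2 := by
    rw [div_le_iff₀ hp] at h2
    linarith
  have hl0 : 0 < Real.log n := Real.log_pos (by linarith)
  have e1 : (n : ℝ) ^ (9 / 10 : ℝ) = (n : ℝ) ^ (1 / 20 : ℝ) * (n : ℝ) ^ (17 / 20 : ℝ) := by
    rw [← Real.rpow_add hn0]; norm_num
  have e2 : (n : ℝ) ^ (17 / 20 : ℝ) - (n : ℝ) ^ (9 / 10 : ℝ) / (18 * Δ) ≤
      -((1 + |K|) * (n : ℝ) ^ (17 / 20 : ℝ)) := by
    rw [e1]
    have : (18 * Δ * (2 + |K|)) * (n : ℝ) ^ (17 / 20 : ℝ) / (18 * Δ) ≤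
        (n : ℝ) ^ (1 / 20 : ℝ) * (n : ℝ) ^ (17 / 20 : ℝ) / (18 * Δ) := by
      gcongr
    have e3 : (18 * Δ * (2 + |K|)) * (n : ℝ) ^ (17 / 20 : ℝ) / (18 * Δ) =
        (2 + |K|) * (n : ℝ) ^ (17 / 20 : ℝ) := by field_simp
    rw [e3] at this
    linarith
  have e4 : Real.exp ((n : ℝ) ^ (17 / 20 : ℝ) - (n : ℝ) ^ (9 / 10 : ℝ) / (18 * Δ)) ≤
      (n : ℝ) ^ (-(K + 1)) := by
    have e7 : (n : ℝ) ^ (-(K + 1)) = Real.exp (Real.log n * (-(K + 1))) :=
      Real.rpow_def_of_pos hn0 _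
    rw [e7]
    apply Real.exp_le_exp.2
    refine e2.trans ?_
    have hK : K ≤ |K| := le_abs_self K
    have h5 : (K + 1) * Real.log n ≤ (1 + |K|) * Real.log n := by
      apply mul_le_mul_of_nonneg_right _ hl0.le
      linarith
    have h6 : (1 + |K|) * Real.log n ≤ (1 + |K|) * (n : ℝ) ^ (17 / 20 : ℝ) := by
      apply mul_le_mul_of_nonneg_left _ (by positivity)
      linarith
    linarith
  have e5 : (n : ℝ) ^ (-K) = n * (n : ℝ) ^ (-(K + 1)) := by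
    nth_rw 2 [← Real.rpow_one (n : ℝ)]
    rw [← Real.rpow_add hn0]
    congr 1; ring
  have e6 : (0 : ℝ) ≤ (n : ℝ) ^ (-(K + 1)) := by positivity
  rw [e5]
  nlinarith

theorem t_FIN (hAA : S_AA) (hISO : S_ISO) (hSPA : S_SPA) (hDEG : S_DEG) (hEXT : S_EXT)
    (hNUM : RG.S_NUM2) : S_FIN := by
  intro ε η K hε hη hη1 hK
  obtain ⟨r₀, hSPA⟩ := hSPA (K + 1) (by linarith)
  obtain ⟨r, hr0, hr1⟩ : ∃ r : ℕ, r₀ ≤ r ∧ 1 ≤ r := ⟨max r₀ 1, le_max_left _ _, le_max_right _ _⟩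
  obtain ⟨Δ₀, hNUM⟩ := hNUM ε η (1 / 3) r hε hη hη1 (by norm_num) (by norm_num)
  refine ⟨Δ₀, fun Δ q hΔ₀ hq => ?_⟩
  obtain ⟨hΔ1, hk3, hnum1, n₁, hnum⟩ := hNUM Δ q hΔ₀ hq
  obtain ⟨n₃, hSPA⟩ := hSPA r hr0 Δ
  have hΔ : (0 : ℝ) < (Δ : ℝ) := by exact_mod_cast hΔ1
  set k : ℕ := q - r with hk
  have hkq : k + r = q := by omega
  have hk0 : 0 < k := by omega
  obtain ⟨n₂, hAA⟩ := hAA k Δ hk3 hnum1
  obtain ⟨n₄, hn₄, hev⟩ := ev_fin K Δ hΔ1
  refine ⟨max (max n₁ n₂) (max n₃ n₄), fun n m hn hnm v hv => ?_⟩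
  have hn₁ : n₁ ≤ n := ((le_max_left _ _).trans (le_max_left _ _)).trans hn
  have hn₂ : n₂ ≤ n := ((le_max_right _ _).trans (le_max_left _ _)).trans hn
  have hn₃ : n₃ ≤ n := ((le_max_left _ _).trans (le_max_right _ _)).trans hn
  have hn4 : n₄ ≤ n := ((le_max_right _ _).trans (le_max_right _ _)).trans hn
  have hn1 : 1 ≤ n := hn₄.trans hn4
  have hnR : (1 : ℝ) ≤ n := by exact_mod_cast hn1
  have hn0 : (0 : ℝ) < n := by linarith
  have hm1 : 1 ≤ m := by omega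
  have hm0 : (0 : ℝ) < m := by exact_mod_cast hm1
  have h2m : 2 * (m : ℝ) ≤ Δ * n := by exact_mod_cast two_m_le v hv
  have hF : (0 : ℝ) < ((2 * m).factorial : ℝ) := by exact_mod_cast Nat.factorial_pos _
  obtain ⟨A, hA1, hA2⟩ := hAA n m hn₂ hnm v hv
  have x1 : (1 - 3 * (1 / 3) / 20 : ℝ) = 19 / 20 := by norm_num
  have x2 : (1 - 3 * (1 / 3) / 10 : ℝ) = 9 / 10 := by norm_num
  rw [x1, x2] at hnum
  set h : ℝ := (n : ℝ) ^ (19 / 20 : ℝ) with hh
  have hh0 : 0 ≤ h := by rw [hh]; positivity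
  set B1 : Finset (Equiv.Perm (HE m)) := univ.filter fun π => ∃ U : Finset (Fin n),
    U.Nonempty ∧ (U.card : ℝ) ≤ 2 * (n : ℝ) ^ (19 / 20 : ℝ) ∧ r * U.card ≤ 2 * eU v π U with hB1
  set B2 : Finset (Equiv.Perm (HE m)) := univ.filter fun π =>
    ∀ π' ∈ A, h ≤ ((univ.filter fun p => π p ≠ π' p).card : ℝ) with hB2
  have m1 : (B1.card : ℝ) ≤ (n : ℝ) ^ (-(K + 1)) * ((2 * m).factorial : ℝ) :=
    hSPA n m hn₃ hnm v hv
  have m2 : (B2.card : ℝ) ≤
      Real.exp ((n : ℝ) ^ (17 / 20 : ℝ) - (n : ℝ) ^ (9 / 10 : ℝ) / (18 * Δ)) *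
        ((2 * m).factorial : ℝ) := by
    have h2 := hISO m A h hh0
    have h4 : (n : ℝ) ^ (9 / 10 : ℝ) / (18 * Δ) ≤ h ^ 2 / (36 * m) := by
      have e : h ^ 2 = (n : ℝ) ^ (9 / 10 : ℝ) * n := by
        rw [hh, ← Real.rpow_natCast, ← Real.rpow_mul hn0.le]
        nth_rw 3 [← Real.rpow_one (n : ℝ)]
        rw [← Real.rpow_add hn0]
        norm_num
      rw [e, div_le_div_iff₀ (by positivity) (by positivity)]
      have hp : (0 : ℝ) ≤ (n : ℝ) ^ (9 / 10 : ℝ) := by positivity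
      nlinarith [mul_le_mul_of_nonneg_left h2m hp]
    have h5 : (0 : ℝ) ≤ (B2.card : ℝ) := Nat.cast_nonneg _
    have h6 : (Real.exp (-(n : ℝ) ^ (17 / 20 : ℝ)) * ((2 * m).factorial : ℝ)) * (B2.card : ℝ) ≤
        ((2 * m).factorial : ℝ) ^ 2 * Real.exp (-((n : ℝ) ^ (9 / 10 : ℝ) / (18 * Δ))) := by
      refine (mul_le_mul_of_nonneg_right hA1 h5).trans (h2.trans ?_)
      refine mul_le_mul_of_nonneg_left ?_ (by positivity)
      apply Real.exp_le_exp.2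
      linarith
    have h7 : (B2.card : ℝ) * (Real.exp (-(n : ℝ) ^ (17 / 20 : ℝ)) * ((2 * m).factorial : ℝ)) ≤
        (Real.exp ((n : ℝ) ^ (17 / 20 : ℝ) - (n : ℝ) ^ (9 / 10 : ℝ) / (18 * Δ)) *
        ((2 * m).factorial : ℝ)) *
          (Real.exp (-(n : ℝ) ^ (17 / 20 : ℝ)) * ((2 * m).factorial : ℝ)) := by
      have e : (Real.exp ((n : ℝ) ^ (17 / 20 : ℝ) - (n : ℝ) ^ (9 / 10 : ℝ) / (18 * Δ)) *
        ((2 * m).factorial : ℝ)) *
          (Real.exp (-(n : ℝ) ^ (17 / 20 : ℝ)) * ((2 * m).factorial : ℝ)) =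
          ((2 * m).factorial : ℝ) ^ 2 * Real.exp (-((n : ℝ) ^ (9 / 10 : ℝ) / (18 * Δ))) := by
        have : Real.exp ((n : ℝ) ^ (17 / 20 : ℝ) - (n : ℝ) ^ (9 / 10 : ℝ) / (18 * Δ)) *
            Real.exp (-(n : ℝ) ^ (17 / 20 : ℝ)) =
            Real.exp (-((n : ℝ) ^ (9 / 10 : ℝ) / (18 * Δ))) := by
          rw [← Real.exp_add]; congr 1; ring
        rw [← this]; ring
      rw [e]
      linarith
    exact le_of_mul_le_mul_right h7 (by positivity)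
  have hgood : ∀ π, (∀ j, v (π (j, false)) ≠ v (π (j, true))) → π ∉ B1 → π ∉ B2 →
      (1 - 1 / (q : ℝ)) ^ m * ((1 - η) * q) ^ n ≤ ((cols q v π).card : ℝ) := by
    intro π hl g1 g2
    have g1' : ∀ U : Finset (Fin n), U.Nonempty → (U.card : ℝ) ≤ 2 * (n : ℝ) ^ (19 / 20 : ℝ) →
        2 * eU v π U < r * U.card := by
      intro U hU hUc
      by_contra hcon
      exact g1 (mem_filter.2 ⟨mem_univ _, U, hU, hUc, not_lt.1 hcon⟩)
    have g2' : ∃ π' ∈ A, ((univ.filter fun p => π p ≠ π' p).card : ℝ) < h := by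
      by_contra hcon
      push Not at hcon
      exact g2 (mem_filter.2 ⟨mem_univ _, hcon⟩)
    obtain ⟨π', hπ', hX⟩ := g2'
    set Dp : Finset (HE m) := univ.filter fun p => π p ≠ π' p with hDp
    set J : Finset (Fin m) := Dp.image Prod.fst with hJ
    set X : Finset (Fin n) := (J ×ˢ (univ : Finset Bool)).image fun p => v (π p) with hXd
    have hXc : (X.card : ℝ) ≤ 2 * h := by
      have a1 : X.card ≤ (J ×ˢ (univ : Finset Bool)).card := Finset.card_image_le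
      have a2 : J.card ≤ Dp.card := Finset.card_image_le
      have a3 : (J ×ˢ (univ : Finset Bool)).card = J.card * 2 := by
        rw [Finset.card_product]; simp
      have a4 : X.card ≤ 2 * Dp.card := by omega
      have a5 : (X.card : ℝ) ≤ 2 * (Dp.card : ℝ) := by exact_mod_cast a4
      linarith
    have hXm : ∀ j, (π (j, false) ≠ π' (j, false) ∨ π (j, true) ≠ π' (j, true)) →
        v (π (j, false)) ∈ X ∧ v (π (j, true)) ∈ X := by
      intro j hj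
      have hjJ : j ∈ J := by
        rw [hJ, mem_image]
        rcases hj with h1 | h1
        · exact ⟨(j, false), by rw [hDp, mem_filter]; exact ⟨mem_univ _, h1⟩, rfl⟩
        · exact ⟨(j, true), by rw [hDp, mem_filter]; exact ⟨mem_univ _, h1⟩, rfl⟩
      constructor
      · rw [hXd, mem_image]
        exact ⟨(j, false), mem_product.2 ⟨hjJ, mem_univ _⟩, rfl⟩
      · rw [hXd, mem_image]
        exact ⟨(j, true), mem_product.2 ⟨hjJ, mem_univ _⟩, rfl⟩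
    have hcol := hDEG r n m v π X hr1 hl (fun U hU hUn => g1' U hUn (by
      have : (U.card : ℝ) ≤ X.card := by exact_mod_cast Finset.card_le_card hU
      rw [hh] at hXc
      linarith))
    have hext := hEXT r n m k v π π' X hXm hcol
    rw [hkq] at hext
    have hc' := hA2 π' hπ'
    have hnm' := hnum n m m X.card hn₁ (by omega) (by nlinarith) (by rw [hh] at hXc; exact hXc)
    have hexp : Real.exp (-(n : ℝ) ^ (9 / 10 : ℝ)) ≤ Real.exp (-(n : ℝ) ^ (17 / 20 : ℝ)) := by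
      apply Real.exp_le_exp.2
      have : (n : ℝ) ^ (17 / 20 : ℝ) ≤ (n : ℝ) ^ (9 / 10 : ℝ) :=
        Real.rpow_le_rpow_of_exponent_le hnR (by norm_num)
      linarith
    have hk1 : (0 : ℝ) ≤ 1 - 1 / (k : ℝ) := by
      have hk1' : (1 : ℝ) ≤ k := by exact_mod_cast hk0
      have : 1 / (k : ℝ) ≤ 1 := by rw [div_le_one (by linarith)]; exact hk1'
      linarith
    have hfin : (1 - 1 / (q : ℝ)) ^ m * ((1 - η) * q) ^ n * (k : ℝ) ^ X.card ≤
        ((cols q v π).card : ℝ) * (k : ℝ) ^ X.card := by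
      have b1 : (1 - 1 / (k : ℝ)) ^ m * ((k : ℝ) ^ n * Real.exp (-(n : ℝ) ^ (9 / 10 : ℝ))) ≤
          (1 - 1 / (k : ℝ)) ^ m * ((k : ℝ) ^ n * Real.exp (-(n : ℝ) ^ (17 / 20 : ℝ))) := by
        have : (0 : ℝ) ≤ (1 - 1 / (k : ℝ)) ^ m := pow_nonneg hk1 _
        gcongr
      have b2 : ((cols k v π').card : ℝ) ≤ (k : ℝ) ^ X.card * ((cols q v π).card : ℝ) := by
        exact_mod_cast hext
      calc _ ≤ _ := hnm'
        _ ≤ _ := b1
        _ ≤ _ := hc'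
        _ ≤ _ := b2
        _ = _ := mul_comm _ _
    have hkp : (0 : ℝ) < (k : ℝ) ^ X.card := by
      have : (0 : ℝ) < k := by exact_mod_cast hk0
      positivity
    exact le_of_mul_le_mul_right hfin hkp
  have hsub : (univ.filter fun π : Equiv.Perm (HE m) => (∀ j, v (π (j, false)) ≠ v (π (j, true))) ∧
      ¬ ((1 - 1 / (q : ℝ)) ^ m * ((1 - η) * q) ^ n ≤ ((cols q v π).card : ℝ))) ⊆ B1 ∪ B2 := by
    intro π hπ
    rw [mem_filter] at hπ
    by_contra hcon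
    rw [mem_union] at hcon
    push Not at hcon
    exact hπ.2.2 (hgood π hπ.2.1 hcon.1 hcon.2)
  have hc1 : ((univ.filter fun π : Equiv.Perm (HE m) =>
      (∀ j, v (π (j, false)) ≠ v (π (j, true))) ∧
      ¬ ((1 - 1 / (q : ℝ)) ^ m * ((1 - η) * q) ^ n ≤ ((cols q v π).card : ℝ))).card : ℝ) ≤
      (B1.card : ℝ) + (B2.card : ℝ) := by
    have := (Finset.card_le_card hsub).trans (Finset.card_union_le _ _)
    exact_mod_cast this
  refine hc1.trans ?_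
  have := hev n hn4
  calc (B1.card : ℝ) + (B2.card : ℝ) ≤ _ := add_le_add m1 m2
    _ = ((n : ℝ) ^ (-(K + 1)) +
        Real.exp ((n : ℝ) ^ (17 / 20 : ℝ) - (n : ℝ) ^ (9 / 10 : ℝ) / (18 * Δ))) *
          ((2 * m).factorial : ℝ) := by ring
    _ ≤ _ := mul_le_mul_of_nonneg_right this hF.le

end Run7.h932.DS
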