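import Pool.Agent.Run7.h932.DS.Stm2

set_option autoImplicit false

namespace Run7.h932.DS

open Finset Classical

/-- the edges, as pairs `x < y` -/
noncomputable def Ed {n : ℕ} (G : SimpleGraph (Fin n)) : Finset (Fin n × Fin n) :=
  univ.filter fun z => z.1 < z.2 ∧ G.Adj z.1 z.2

theorem mem_Ed {n : ℕ} {G : SimpleGraph (Fin n)} {z : Fin n × Fin n} :
    z ∈ Ed G ↔ z.1 < z.2 ∧ G.Adj z.1 z.2 := by
  unfold Ed
  rw [mem_filter]
  exact ⟨fun h => h.2, fun h => ⟨mem_univ _, h⟩⟩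

theorem sum_dgs {n : ℕ} (G : SimpleGraph (Fin n)) : ∑ x, dgs G x = 2 * (Ed G).card := by
  have h1 : ∑ x, dgs G x = (univ.filter fun z : Fin n × Fin n => G.Adj z.1 z.2).card := by
    unfold dgs
    rw [Finset.card_filter, Fintype.sum_prod_type]
    refine Finset.sum_congr rfl fun x _ => ?_
    rw [Finset.card_filter]
  have h2 : (univ.filter fun z : Fin n × Fin n => G.Adj z.1 z.2) =
      Ed G ∪ (Ed G).image Prod.swap := by
    ext ⟨x, y⟩
    simp only [Ed, mem_filter, mem_univ, true_and, mem_union, mem_image, Prod.exists,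
      Prod.swap_prod_mk, Prod.mk.injEq]
    constructor
    · intro h
      rcases lt_trichotomy x y with h3 | h3 | h3
      · exact Or.inl ⟨h3, h⟩
      · exact absurd h3 h.ne
      · exact Or.inr ⟨y, x, ⟨h3, h.symm⟩, rfl, rfl⟩
    · rintro (h | ⟨a, b, ⟨h3, h4⟩, rfl, rfl⟩)
      · exact h.2
      · exact h4.symm
  have h3 : Disjoint (Ed G) ((Ed G).image Prod.swap) := by
    rw [Finset.disjoint_left]
    rintro ⟨x, y⟩ h h'
    simp only [Ed, mem_filter, mem_univ, true_and, mem_image, Prod.exists,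
      Prod.swap_prod_mk, Prod.mk.injEq] at h h'
    obtain ⟨a, b, ⟨h3, -⟩, rfl, rfl⟩ := h'
    exact absurd h.1 (not_lt.2 h3.le)
  rw [h1, h2, Finset.card_union_of_disjoint h3,
    Finset.card_image_of_injective _ Prod.swap_injective]
  ring

theorem Ed_add {n : ℕ} (G : SimpleGraph (Fin n)) (z : Fin n × Fin n) (h1 : z.1 < z.2)
    (h2 : ¬ G.Adj z.1 z.2) : (Ed (G ⊔ SimpleGraph.edge z.1 z.2)).card = (Ed G).card + 1 := by
  have h : Ed (G ⊔ SimpleGraph.edge z.1 z.2) = insert z (Ed G) := by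
    ext ⟨x, y⟩
    simp only [Ed, mem_filter, mem_univ, true_and, mem_insert, SimpleGraph.sup_adj,
      SimpleGraph.edge_adj]
    constructor
    · rintro ⟨h3, h4 | ⟨h4, -⟩⟩
      · exact Or.inr ⟨h3, h4⟩
      · rcases h4 with ⟨rfl, rfl⟩ | ⟨rfl, rfl⟩
        · exact Or.inl rfl
        · exact absurd h1 (not_lt.2 h3.le)
    · rintro (h3 | ⟨h3, h4⟩)
      · have e1 : x = z.1 := by rw [← h3]
        have e2 : y = z.2 := by rw [← h3]
        rw [e1, e2]
        exact ⟨h1, Or.inr ⟨Or.inl ⟨rfl, rfl⟩, h1.ne⟩⟩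
      · exact ⟨h3, Or.inl h4⟩
  rw [h, Finset.card_insert_of_notMem]
  intro h3
  exact h2 (mem_filter.1 h3).2.2

/-- the graphs with `m` edges -/
noncomputable def GM (n g Δ m : ℕ) : Finset (SimpleGraph (Fin n)) :=
  univ.filter fun G => ClsMax g Δ G ∧ (Ed G).card = m

noncomputable def AddS {n : ℕ} (g Δ : ℕ) (G : SimpleGraph (Fin n)) : Finset (Fin n × Fin n) :=
  univ.filter fun z : Fin n × Fin n => z.1 < z.2 ∧ ¬ G.Adj z.1 z.2 ∧
      ClsMax g Δ (G ⊔ SimpleGraph.edge z.1 z.2)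

theorem step_GM {n g Δ m : ℕ} (hadd : ∀ G : SimpleGraph (Fin n), ClsMax g Δ G →
    2 * (∑ x, dgs G x) ≤ 3 * n → n ^ 2 ≤ 32 * (AddS g Δ G).card) (hn : 4 ≤ n)
    (hm : 4 * m ≤ 3 * n) : n * (GM n g Δ m).card ≤ 32 * (GM n g Δ (m + 1)).card := by
  have h1 : ((GM n g Δ m).sigma fun G => AddS g Δ G).card ≤
      ((GM n g Δ (m + 1)).sigma fun G => Ed G).card := by
    refine Finset.card_le_card_of_injOn
      (fun p => ⟨p.1 ⊔ SimpleGraph.edge p.2.1 p.2.2, p.2⟩) ?_ ?_
    · rintro ⟨G, z⟩ hp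
      rw [mem_coe, mem_sigma] at hp
      obtain ⟨a1, a2⟩ := hp
      obtain ⟨-, b1, b2⟩ := mem_filter.1 a1
      obtain ⟨-, c1, c2, c3⟩ := mem_filter.1 a2
      rw [mem_coe, mem_sigma]
      refine ⟨mem_filter.2 ⟨mem_univ _, c3, ?_⟩, mem_Ed.2 ⟨c1, ?_⟩⟩
      · simp only
        rw [Ed_add G z c1 c2, b2]
      · rw [SimpleGraph.sup_adj]
        refine Or.inr ?_
        rw [SimpleGraph.edge_adj]
        exact ⟨Or.inl ⟨rfl, rfl⟩, c1.ne⟩
    · rintro ⟨G, z⟩ hp ⟨G', z'⟩ hp' heq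
      rw [mem_coe, mem_sigma] at hp hp'
      obtain ⟨-, c1, c2, -⟩ := mem_filter.1 hp.2
      obtain ⟨-, d1, d2, -⟩ := mem_filter.1 hp'.2
      simp only [Sigma.mk.injEq] at heq
      obtain ⟨e1, e2⟩ := heq
      have e2 := eq_of_heq e2
      subst e2
      have : G = G' := by
        ext x y
        have h := congrArg (fun H : SimpleGraph (Fin n) => H.Adj x y) e1
        simp only [SimpleGraph.sup_adj, SimpleGraph.edge_adj, eq_iff_iff] at h
        constructor
        · intro hG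
          rcases h.1 (Or.inl hG) with h3 | ⟨h3, -⟩
          · exact h3
          · exfalso
            rcases h3 with ⟨rfl, rfl⟩ | ⟨rfl, rfl⟩
            · exact c2 hG
            · exact c2 hG.symm
        · intro hG
          rcases h.2 (Or.inl hG) with h3 | ⟨h3, -⟩
          · exact h3
          · exfalso
            rcases h3 with ⟨rfl, rfl⟩ | ⟨rfl, rfl⟩
            · exact d2 hG
            · exact d2 hG.symm
      subst this
      rfl
  rw [Finset.card_sigma, Finset.card_sigma] at h1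
  have h2 : ∑ G ∈ GM n g Δ (m + 1), (Ed G).card = (GM n g Δ (m + 1)).card * (m + 1) := by
    rw [Finset.sum_congr rfl (g := fun _ => m + 1) fun G hG => (mem_filter.1 hG).2.2,
      Finset.sum_const, smul_eq_mul]
  have h3 : (GM n g Δ m).card * n ^ 2 ≤ 32 * ∑ G ∈ GM n g Δ m, (AddS g Δ G).card := by
    rw [Finset.mul_sum, ← smul_eq_mul, ← Finset.sum_const]
    refine Finset.sum_le_sum fun G hG => ?_
    obtain ⟨-, a1, a2⟩ := mem_filter.1 hG
    refine hadd G a1 ?_
    rw [sum_dgs, a2]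
    omega
  rw [h2] at h1
  have h4 : (GM n g Δ m).card * n ^ 2 ≤ 32 * ((GM n g Δ (m + 1)).card * (m + 1)) :=
    h3.trans (Nat.mul_le_mul_left _ h1)
  have h5 : m + 1 ≤ n := by omega
  have h6 : n * (n * (GM n g Δ m).card) ≤ n * (32 * (GM n g Δ (m + 1)).card) := by
    calc n * (n * (GM n g Δ m).card) = (GM n g Δ m).card * n ^ 2 := by ring
      _ ≤ _ := h4
      _ ≤ 32 * ((GM n g Δ (m + 1)).card * n) := by
          exact Nat.mul_le_mul_left _ (Nat.mul_le_mul_left _ h5)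
      _ = _ := by ring
  exact Nat.le_of_mul_le_mul_left h6 (by omega)

theorem steps_GM {n g Δ m : ℕ} (hadd : ∀ G : SimpleGraph (Fin n), ClsMax g Δ G →
    2 * (∑ x, dgs G x) ≤ 3 * n → n ^ 2 ≤ 32 * (AddS g Δ G).card) (hn : 4 ≤ n)
    (hm : 2 * m ≤ n) : ∀ J : ℕ, 4 * J ≤ n →
    n ^ J * (GM n g Δ m).card ≤ 32 ^ J * (GM n g Δ (m + J)).card := by
  intro J
  induction J with
  | zero => intro _; simp
  | succ J ih =>
    intro hJ
    have h1 := ih (by omega)
    have h2 := step_GM (m := m + J) hadd hn (by omega)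
    calc n ^ (J + 1) * (GM n g Δ m).card = n * (n ^ J * (GM n g Δ m).card) := by ring
      _ ≤ n * (32 ^ J * (GM n g Δ (m + J)).card) := Nat.mul_le_mul_left _ h1
      _ = 32 ^ J * (n * (GM n g Δ (m + J)).card) := by ring
      _ ≤ 32 ^ J * (32 * (GM n g Δ (m + J + 1)).card) := Nat.mul_le_mul_left _ h2
      _ = _ := by rw [pow_succ]; ring_nf

theorem t_LOW (hADD : S_ADD) : S_LOW := by
  intro g Δ K hΔ hK
  obtain ⟨n₁, hadd⟩ := hADD g Δ hΔ
  set J : ℕ := ⌈K⌉₊ + 1 with hJ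
  refine ⟨max (max n₁ 4) (max (4 * J) (32 ^ J)), fun n hn => ?_⟩
  have hn₁ : n₁ ≤ n := ((le_max_left _ _).trans (le_max_left _ _)).trans hn
  have hn4 : 4 ≤ n := ((le_max_right _ _).trans (le_max_left _ _)).trans hn
  have hnJ : 4 * J ≤ n := ((le_max_left _ _).trans (le_max_right _ _)).trans hn
  have hn32 : 32 ^ J ≤ n := ((le_max_right _ _).trans (le_max_right _ _)).trans hn
  have hn0 : (0 : ℝ) < n := by
    have : 0 < n := by omega
    exact_mod_cast this
  have hnR : (1 : ℝ) ≤ n := by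
    have : 1 ≤ n := by omega
    exact_mod_cast this
  set M : ℕ := (n + 1) / 2 with hM
  have h1 : (univ.filter fun G : SimpleGraph (Fin n) => ClsMax g Δ G ∧ ∑ x, dgs G x < n).card =
      ∑ m ∈ range M, (GM n g Δ m).card := by
    have h := Finset.card_eq_sum_card_fiberwise (f := fun G : SimpleGraph (Fin n) => (Ed G).card)
      (s := univ.filter fun G : SimpleGraph (Fin n) => ClsMax g Δ G ∧ ∑ x, dgs G x < n)
      (t := range M) (fun G hG => by
        have hG' := (mem_filter.1 (mem_coe.1 hG)).2.2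
        rw [sum_dgs] at hG'
        refine mem_coe.2 (mem_range.2 ?_)
        show (Ed G).card < M
        omega)
    rw [h]
    refine Finset.sum_congr rfl fun m hm => ?_
    have hm' := mem_range.1 hm
    congr 1
    ext G
    simp only [GM, mem_filter, mem_univ, true_and]
    constructor
    · rintro ⟨⟨a1, a2⟩, a3⟩
      exact ⟨a1, a3⟩
    · rintro ⟨a1, a3⟩
      refine ⟨⟨a1, ?_⟩, a3⟩
      rw [sum_dgs, a3]; omega
  have h2 : ∑ m ∈ range M, (GM n g Δ (m + J)).card ≤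
      (univ.filter fun G : SimpleGraph (Fin n) => ClsMax g Δ G).card := by
    rw [← Finset.card_biUnion]
    · refine Finset.card_le_card ?_
      intro G hG
      obtain ⟨m, -, h⟩ := mem_biUnion.1 hG
      exact mem_filter.2 ⟨mem_univ _, (mem_filter.1 h).2.1⟩
    · intro a _ b _ hab
      rw [Function.onFun, Finset.disjoint_left]
      intro G ha hb
      apply hab
      have e1 := (mem_filter.1 ha).2.2
      have e2 := (mem_filter.1 hb).2.2
      omega
  have h3 : n ^ J * ∑ m ∈ range M, (GM n g Δ m).card ≤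
      32 ^ J * ∑ m ∈ range M, (GM n g Δ (m + J)).card := by
    rw [Finset.mul_sum, Finset.mul_sum]
    refine Finset.sum_le_sum fun m hm => ?_
    have hm' := mem_range.1 hm
    exact steps_GM (fun G a b => hadd n hn₁ G a b) hn4 (by omega) J hnJ
  rw [h1]
  set S : ℕ := ∑ m ∈ range M, (GM n g Δ m).card with hS
  set T : ℕ := (univ.filter fun G : SimpleGraph (Fin n) => ClsMax g Δ G).card with hT
  have h4 : (n : ℝ) ^ J * (S : ℝ) ≤ (n : ℝ) * T := by
    have : n ^ J * S ≤ n * T :=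
      h3.trans ((Nat.mul_le_mul_left _ h2).trans (Nat.mul_le_mul_right _ hn32))
    exact_mod_cast this
  have h5 : (n : ℝ) ^ J = (n : ℝ) * (n : ℝ) ^ ⌈K⌉₊ := by rw [hJ, pow_succ]; ring
  rw [h5, mul_assoc] at h4
  have h6 : (n : ℝ) ^ ⌈K⌉₊ * (S : ℝ) ≤ T := le_of_mul_le_mul_left h4 hn0
  have h7 : (n : ℝ) ^ K ≤ (n : ℝ) ^ ⌈K⌉₊ := by
    rw [← Real.rpow_natCast]
    exact Real.rpow_le_rpow_of_exponent_le hnR (Nat.le_ceil _)
  have h8 : (n : ℝ) ^ K * (S : ℝ) ≤ T :=
    (mul_le_mul_of_nonneg_right h7 (Nat.cast_nonneg _)).trans h6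
  have h9 : (0 : ℝ) < (n : ℝ) ^ K := by positivity
  rw [Real.rpow_neg hn0.le, inv_mul_eq_div, le_div_iff₀ h9]
  linarith

end Run7.h932.DS
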