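import Pool.Agent.Run7.h932.DS.Asm2
import Pool.Agent.Run7.h932.DS.LOW

set_option autoImplicit false

namespace Run7.h932.DS

open Finset Classical

theorem final_of (hADD : S_ADD) (ε η K : ℝ) (hε : 0 < ε) (hη : 0 < η) (hη1 : η < 1)
    (hK : 0 < K) :
    ∃ Δ₀ : ℕ, ∀ Δ g : ℕ, Δ₀ ≤ Δ → 3 ≤ g → ∃ n₀ : ℕ, ∀ n : ℕ, n₀ ≤ n →
      (∀ d : Fin n → ℕ, (∀ x, d x ≤ Δ) → n ≤ ∑ x, d x →
        (Even (∑ x, d x) → ∃ G, Cls g d G) ∧
        ((univ.filter fun G : SimpleGraph (Fin n) => Cls g d G ∧ ¬ AllQ ε η Δ G).card : ℝ) ≤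
          (n : ℝ) ^ (-K) * ((univ.filter fun G : SimpleGraph (Fin n) => Cls g d G).card : ℝ)) ∧
      ((univ.filter fun G : SimpleGraph (Fin n) => ClsMax g Δ G ∧ ¬ AllQ ε η Δ G).card : ℝ) ≤
        (n : ℝ) ^ (-K) * ((univ.filter fun G : SimpleGraph (Fin n) => ClsMax g Δ G).card : ℝ) := by
  obtain ⟨Δ₀, h⟩ := main_of sec switchOk ε η (K + 1) hε hη hη1 (by linarith)
  refine ⟨max Δ₀ 3, fun Δ g hΔ hg => ?_⟩
  obtain ⟨n₁, h⟩ := h Δ g ((le_max_left _ _).trans hΔ) hg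
  obtain ⟨n₂, hlow⟩ := t_LOW hADD g Δ (K + 1) ((le_max_right _ _).trans hΔ) (by linarith)
  refine ⟨max (max n₁ n₂) 2, fun n hn => ?_⟩
  have hn₁ : n₁ ≤ n := ((le_max_left _ _).trans (le_max_left _ _)).trans hn
  have hn₂ : n₂ ≤ n := ((le_max_right _ _).trans (le_max_left _ _)).trans hn
  have hn2 : 2 ≤ n := (le_max_right _ _).trans hn
  have hnR : (2 : ℝ) ≤ n := by exact_mod_cast hn2
  have hn0 : (0 : ℝ) < n := by linarith
  have hpow : 2 * (n : ℝ) ^ (-(K + 1)) ≤ (n : ℝ) ^ (-K) := by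
    have e : (n : ℝ) ^ (-K) = n * (n : ℝ) ^ (-(K + 1)) := by
      nth_rw 2 [← Real.rpow_one (n : ℝ)]
      rw [← Real.rpow_add hn0]
      congr 1; ring
    rw [e]
    have : (0 : ℝ) ≤ (n : ℝ) ^ (-(K + 1)) := by positivity
    nlinarith
  have hp0 : (0 : ℝ) ≤ (n : ℝ) ^ (-(K + 1)) := by positivity
  refine ⟨fun d hd hdn => ?_, ?_⟩
  · obtain ⟨h1, h2⟩ := h n hn₁ d hd hdn
    refine ⟨h1, h2.trans ?_⟩
    refine mul_le_mul_of_nonneg_right ?_ (Nat.cast_nonneg _)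
    linarith
  · have h1 : ((univ.filter fun G : SimpleGraph (Fin n) =>
        ClsAll g Δ G ∧ ¬ AllQ ε η Δ G).card : ℝ) ≤ (n : ℝ) ^ (-(K + 1)) *
        ((univ.filter fun G : SimpleGraph (Fin n) => ClsAll g Δ G).card : ℝ) := by
      have h1' := all_of (n := n) (g := g) (Δ := Δ) (fun G => ¬ AllQ ε η Δ G)
        ((n : ℝ) ^ (-(K + 1))) (fun d hd hdn => by convert (h n hn₁ d hd hdn).2)
      convert h1'
    have h2 := hlow n hn₂
    have h3 : (univ.filter fun G : SimpleGraph (Fin n) => ClsMax g Δ G ∧ ¬ AllQ ε η Δ G) ⊆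
        (univ.filter fun G : SimpleGraph (Fin n) => ClsMax g Δ G ∧ ∑ x, dgs G x < n) ∪
        (univ.filter fun G : SimpleGraph (Fin n) => ClsAll g Δ G ∧ ¬ AllQ ε η Δ G) := by
      intro G hG
      obtain ⟨-, a1, a2⟩ := mem_filter.1 hG
      rw [mem_union]
      by_cases h4 : ∑ x, dgs G x < n
      · exact Or.inl (mem_filter.2 ⟨mem_univ _, a1, h4⟩)
      · exact Or.inr (mem_filter.2 ⟨mem_univ _, ⟨a1.1, a1.2, not_lt.1 h4⟩, a2⟩)
    have h5 : ((univ.filter fun G : SimpleGraph (Fin n) =>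
        ClsMax g Δ G ∧ ¬ AllQ ε η Δ G).card : ℝ) ≤
        ((univ.filter fun G : SimpleGraph (Fin n) => ClsMax g Δ G ∧ ∑ x, dgs G x < n).card : ℝ) +
        ((univ.filter fun G : SimpleGraph (Fin n) => ClsAll g Δ G ∧ ¬ AllQ ε η Δ G).card : ℝ) := by
      have := (Finset.card_le_card h3).trans (Finset.card_union_le _ _)
      exact_mod_cast this
    have h6 : ((univ.filter fun G : SimpleGraph (Fin n) => ClsAll g Δ G).card : ℝ) ≤
        ((univ.filter fun G : SimpleGraph (Fin n) => ClsMax g Δ G).card : ℝ) := by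
      have : (univ.filter fun G : SimpleGraph (Fin n) => ClsAll g Δ G) ⊆
          (univ.filter fun G : SimpleGraph (Fin n) => ClsMax g Δ G) := by
        intro G hG
        obtain ⟨-, a1, a2, -⟩ := mem_filter.1 hG
        exact mem_filter.2 ⟨mem_univ _, a1, a2⟩
      exact_mod_cast Finset.card_le_card this
    set T : ℝ := ((univ.filter fun G : SimpleGraph (Fin n) => ClsMax g Δ G).card : ℝ) with hT
    have hT0 : 0 ≤ T := Nat.cast_nonneg _
    have h7 : (n : ℝ) ^ (-(K + 1)) *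
        ((univ.filter fun G : SimpleGraph (Fin n) => ClsAll g Δ G).card : ℝ) ≤
        (n : ℝ) ^ (-(K + 1)) * T := mul_le_mul_of_nonneg_left h6 hp0
    calc _ ≤ _ := h5
      _ ≤ (n : ℝ) ^ (-(K + 1)) * T + (n : ℝ) ^ (-(K + 1)) * T := add_le_add h2 (h1.trans h7)
      _ = 2 * (n : ℝ) ^ (-(K + 1)) * T := by ring
      _ ≤ _ := mul_le_mul_of_nonneg_right hpow hT0

end Run7.h932.DS
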