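import Pool.Agent.Run7.h932.DS.Last

set_option autoImplicit false

/-!
# Project DS: all classes which contain the graphs of large girth
-/

namespace Run7.h932.DS

open Finset Classical

theorem card_inst {X : Type} (S : Finset X) (p : X → Prop) (i j : DecidablePred p) :
    (@filter X p i S).card = (@filter X p j S).card := by
  have : i = j := Subsingleton.elim _ _
  rw [this]

theorem gr_eq {n m : ℕ} (v : HE m → Fin n) (π : Equiv.Perm (HE m)) (G : SimpleGraph (Fin n))
    (hR : Rep v π G) (hD : Deg G (cnt v)) : gr v π = G := by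
  obtain ⟨hadj, hi⟩ := hR
  have hl : ∀ j, v (π (j, false)) ≠ v (π (j, true)) := fun j => (hadj j).ne
  have hle : ∀ x y, (gr v π).Adj x y → G.Adj x y := by
    intro x y hxy
    obtain ⟨j, b, rfl, rfl⟩ := (Run7.h574.DS.gr_adj v π hl x y).1 hxy
    cases b
    · exact hadj j
    · exact (hadj j).symm
  have hd := Run7.h574.DS.deg_gr v π hl hi
  ext x y
  refine ⟨hle x y, fun hxy => ?_⟩
  have hsub : (univ.filter fun y => (gr v π).Adj x y) ⊆ univ.filter fun y => G.Adj x y := by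
    intro z hz
    simp only [mem_filter, mem_univ, true_and] at hz ⊢
    exact hle x z hz
  have hcard : (univ.filter fun y => G.Adj x y).card ≤
      (univ.filter fun y => (gr v π).Adj x y).card := by
    have e1 := hD x
    have e2 := hd x
    rw [e1, e2]
  have heq := Finset.eq_of_subset_of_card_le hsub hcard
  have hy : y ∈ univ.filter fun y => G.Adj x y := by
    simp only [mem_filter, mem_univ, true_and]
    exact hxy
  rw [← heq] at hy
  simp only [mem_filter, mem_univ, true_and] at hy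
  exact hy

/-- the representations of the graphs in a class -/
theorem count_rep {n m F : ℕ} (v : HE m → Fin n) (hF : ∀ G : SimpleGraph (Fin n),
      Deg G (cnt v) → (univ.filter fun π : Equiv.Perm (HE m) => Rep v π G).card = F)
    (P : SimpleGraph (Fin n) → Prop) :
    F * (univ.filter fun G : SimpleGraph (Fin n) => Deg G (cnt v) ∧ P G).card ≤
      (univ.filter fun π : Equiv.Perm (HE m) =>
        (∀ j, v (π (j, false)) ≠ v (π (j, true))) ∧ P (gr v π)).card := by
  have h := Finset.card_eq_sum_card_fiberwise (f := gr v)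
    (s := (univ.filter fun π : Equiv.Perm (HE m) => Rep v π (gr v π) ∧
      Deg (gr v π) (cnt v) ∧ P (gr v π)))
    (t := univ.filter fun G : SimpleGraph (Fin n) => Deg G (cnt v) ∧ P G)
    (fun π hπ => by
      have hπ' := (mem_filter.1 (mem_coe.1 hπ)).2
      exact mem_coe.2 (mem_filter.2 ⟨mem_univ _, hπ'.2⟩))
  have h2 : F * (univ.filter fun G : SimpleGraph (Fin n) => Deg G (cnt v) ∧ P G).card =
      (univ.filter fun π : Equiv.Perm (HE m) => Rep v π (gr v π) ∧
      Deg (gr v π) (cnt v) ∧ P (gr v π)).card := by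
    rw [h, Finset.sum_congr rfl (g := fun _ => F), Finset.sum_const, smul_eq_mul, mul_comm]
    intro G hG
    obtain ⟨h2, h4⟩ := (mem_filter.1 hG).2
    rw [← hF G h2]
    congr 1
    ext π
    simp only [mem_filter, mem_univ, true_and]
    constructor
    · rintro ⟨⟨a1, a2⟩, a3⟩
      rw [a3] at a1
      exact a1
    · intro a
      have b2 := gr_eq v π G a h2
      exact ⟨⟨by rw [b2]; exact a, by rw [b2]; exact h2, by rw [b2]; exact h4⟩, b2⟩
  rw [h2]
  refine card_le_card (fun π hπ => ?_)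
  obtain ⟨-, h1, -, h3⟩ := mem_filter.1 hπ
  exact mem_filter.2 ⟨mem_univ _, fun j => (h1.1 j).ne, h3⟩

/-- the two inequalities for one degree sequence -/
theorem key_deg (ε K : ℝ) (hε : 0 < ε) (hK : 0 < K) :
    ∃ Δ₀ : ℕ, ∀ Δ g q : ℕ, Δ₀ ≤ Δ → 3 ≤ g → (1 / 2 + ε) * (Δ / Real.log Δ) ≤ q → 2 ≤ q →
      ∃ (C : ℝ) (n₀ : ℕ), 0 < C ∧
      ∀ n : ℕ, n₀ ≤ n → ∀ d : Fin n → ℕ, (∀ x, d x ≤ Δ) → n ≤ ∑ x, d x →
      (Even (∑ x, d x) → ∃ G, Cls g d G) ∧
      ((univ.filter fun G : SimpleGraph (Fin n) => Deg G d).card : ℝ) ≤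
        C * ((univ.filter fun G : SimpleGraph (Fin n) => Cls g d G).card : ℝ) ∧
      ((univ.filter fun G : SimpleGraph (Fin n) => Deg G d ∧ ¬ G.Colorable q).card : ℝ) ≤
        C * (n : ℝ) ^ (-K) *
          ((univ.filter fun G : SimpleGraph (Fin n) => Cls g d G).card : ℝ) := by
  obtain ⟨Δ₁, hFIN⟩ := fin_of sec ε (1 / 2) K hε (by norm_num) (by norm_num) hK
  refine ⟨Δ₁, fun Δ g q hΔ hg hq hq2 => ?_⟩
  obtain ⟨n₁, hFIN⟩ := hFIN Δ q hΔ hq
  obtain ⟨c, m₀, hc, hSW⟩ := switchOk (g - 1) Δ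
  refine ⟨1 / c, max n₁ (2 * m₀), by positivity, fun n hn d hd hdn => ?_⟩
  have hn₁ : n₁ ≤ n := (le_max_left _ _).trans hn
  have hn₂ : 2 * m₀ ≤ n := (le_max_right _ _).trans hn
  by_cases hev : Even (∑ x, d x)
  · obtain ⟨m, hm⟩ := hev
    have hm2 : ∑ x, d x = 2 * m := by omega
    obtain ⟨v, hv⟩ := Run7.h332.DS.t_EXV n m d hm2
    have hvd : cnt v = d := funext hv
    have hvΔ : ∀ x, cnt v x ≤ Δ := fun x => by rw [hv]; exact hd x
    have hnm : n ≤ 2 * m := by
      rw [← hm2]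
      exact hdn
    have hm₀ : m₀ ≤ m := by omega
    have hNice := hSW n m v hm₀ hvΔ
    have hFpos : (0 : ℝ) < ((2 * m).factorial : ℝ) := by exact_mod_cast Nat.factorial_pos _
    obtain ⟨F, hF⟩ := Run7.h332.DS.t_REP n m v
    have hgL : g - 1 + 1 = g := by omega
    have hcount := count_nice Run7.h574.DS.t_NICE1 Run7.h574.DS.t_NICE2 (L := g - 1) (by omega) v hF
    have hc1 := hcount (fun _ => True)
    simp only [and_true] at hc1
    rw [hgL, hvd] at hc1
    have hNpos : 0 < (univ.filter fun π : Equiv.Perm (HE m) => Nice v π (g - 1)).card := by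
      have : (0 : ℝ) < ((univ.filter fun π : Equiv.Perm (HE m) => Nice v π (g - 1)).card : ℝ) :=
        lt_of_lt_of_le (by positivity) hNice
      exact_mod_cast this
    have hFp : 0 < F := by
      rcases Nat.eq_zero_or_pos F with h | h
      · rw [hc1, h, zero_mul] at hNpos; exact absurd hNpos (lt_irrefl _)
      · exact h
    have hFR : (0 : ℝ) < F := by exact_mod_cast hFp
    have hNR : c * ((2 * m).factorial : ℝ) ≤
        (F : ℝ) * ((univ.filter fun G : SimpleGraph (Fin n) => Cls g d G).card : ℝ) := by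
      refine hNice.trans (le_of_eq ?_)
      rw [← Nat.cast_mul]
      refine congrArg _ ?_
      convert hc1
    have hPerm : Fintype.card (Equiv.Perm (HE m)) = (2 * m).factorial := by
      rw [Fintype.card_perm, Fintype.card_prod, Fintype.card_fin, Fintype.card_bool, mul_comm]
    refine ⟨?_, ?_, ?_⟩
    · intro _
      obtain ⟨π, hπ⟩ := Finset.card_pos.1 hNpos
      have hπ' := (mem_filter.1 hπ).2
      obtain ⟨-, h2, h3, -⟩ := Run7.h574.DS.t_NICE1 n m (g - 1) v π (by omega) hπ'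
      rw [hgL] at h3
      rw [hvd] at h2
      exact ⟨gr v π, h3, h2⟩
    · have h1 := count_rep v hF (fun _ => True)
      simp only [and_true] at h1
      rw [hvd] at h1
      have h2 : (univ.filter fun π : Equiv.Perm (HE m) =>
          ∀ j, v (π (j, false)) ≠ v (π (j, true))).card ≤ (2 * m).factorial := by
        rw [← hPerm]; exact card_le_univ _
      have h3 : (F : ℝ) * ((univ.filter fun G : SimpleGraph (Fin n) => Deg G d).card : ℝ) ≤
          ((2 * m).factorial : ℝ) := by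
        exact_mod_cast h1.trans h2
      have h4 : (F : ℝ) * ((univ.filter fun G : SimpleGraph (Fin n) => Deg G d).card : ℝ) ≤
          (F : ℝ) * (1 / c * ((univ.filter fun G : SimpleGraph (Fin n) => Cls g d G).card : ℝ)) := by
        refine h3.trans ?_
        rw [show (F : ℝ) * (1 / c * ((univ.filter fun G : SimpleGraph (Fin n) =>
          Cls g d G).card : ℝ)) = (F : ℝ) * ((univ.filter fun G : SimpleGraph (Fin n) =>
          Cls g d G).card : ℝ) / c by ring, le_div_iff₀ hc]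
        linarith
      exact le_of_mul_le_mul_left h4 hFR
    · have h1 := count_rep v hF (fun G => ¬ G.Colorable q)
      rw [hvd] at h1
      have h2 : (univ.filter fun π : Equiv.Perm (HE m) =>
          (∀ j, v (π (j, false)) ≠ v (π (j, true))) ∧ ¬ (gr v π).Colorable q) ⊆
          (univ.filter fun π : Equiv.Perm (HE m) => (∀ j, v (π (j, false)) ≠ v (π (j, true))) ∧
        ¬ ((1 - 1 / (q : ℝ)) ^ m * ((1 - 1 / 2) * q) ^ n ≤ ((cols q v π).card : ℝ))) := by
        intro π hπ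
        obtain ⟨-, a1, a2⟩ := mem_filter.1 hπ
        refine mem_filter.2 ⟨mem_univ _, a1, fun h => a2 ?_⟩
        have hqR : (2 : ℝ) ≤ q := by exact_mod_cast hq2
        have a3 : (0 : ℝ) < (1 - 1 / (q : ℝ)) ^ m * ((1 - 1 / 2) * q) ^ n := by
          have : (1 : ℝ) / q ≤ 1 / 2 := one_div_le_one_div_of_le (by norm_num) hqR
          have b1 : (0 : ℝ) < 1 - 1 / (q : ℝ) := by linarith
          have b2 : (0 : ℝ) < (1 - 1 / 2) * q := by linarith
          positivity
        have a4 : (0 : ℝ) < ((cols q v π).card : ℝ) := lt_of_lt_of_le a3 h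
        have a5 : 0 < (cols q v π).card := by exact_mod_cast a4
        rw [Run7.h441.DS.t_COL n m q v π a1] at a5
        obtain ⟨C⟩ := (Nat.card_pos_iff.1 a5).1
        exact ⟨C⟩
      have h3 := hFIN n m hn₁ hnm v hvΔ
      have h4 : ((univ.filter fun π : Equiv.Perm (HE m) =>
          (∀ j, v (π (j, false)) ≠ v (π (j, true))) ∧ ¬ (gr v π).Colorable q).card : ℝ) ≤
          (n : ℝ) ^ (-K) * ((2 * m).factorial : ℝ) := by
        refine le_trans ?_ h3
        exact_mod_cast card_le_card h2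
      have h5 : (F : ℝ) * ((univ.filter fun G : SimpleGraph (Fin n) =>
          Deg G d ∧ ¬ G.Colorable q).card : ℝ) ≤ (n : ℝ) ^ (-K) * ((2 * m).factorial : ℝ) := by
        refine le_trans ?_ h4
        rw [← Nat.cast_mul]
        refine Nat.cast_le.2 ?_
        convert h1
      have h6 : (F : ℝ) * ((univ.filter fun G : SimpleGraph (Fin n) =>
          Deg G d ∧ ¬ G.Colorable q).card : ℝ) ≤ (F : ℝ) * (1 / c * (n : ℝ) ^ (-K) *
            ((univ.filter fun G : SimpleGraph (Fin n) => Cls g d G).card : ℝ)) := by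
        refine h5.trans ?_
        have h7 : ((2 * m).factorial : ℝ) ≤ (F : ℝ) * ((univ.filter fun G : SimpleGraph (Fin n) =>
          Cls g d G).card : ℝ) / c := by
          rw [le_div_iff₀ hc]; linarith
        have h8 := mul_le_mul_of_nonneg_left h7 (show (0 : ℝ) ≤ (n : ℝ) ^ (-K) by positivity)
        refine h8.trans (le_of_eq ?_)
        ring
      exact le_of_mul_le_mul_left h6 hFR
  · have h0 : ∀ G : SimpleGraph (Fin n), ¬ Deg G d := fun G h => hev (even_of_deg h)
    refine ⟨fun h => absurd h hev, ?_, ?_⟩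
    · rw [filter_eq_empty_iff.2 (fun G _ => h0 G)]
      simp only [card_empty, Nat.cast_zero]
      positivity
    · rw [filter_eq_empty_iff.2 (fun G _ h => h0 G h.1)]
      simp only [card_empty, Nat.cast_zero]
      positivity

/-- from degree sequences to all graphs with at least `n / 2` edges -/
theorem sum_deg {n Δ : ℕ} (A B : SimpleGraph (Fin n) → Prop) (κ : ℝ)
    (h : ∀ d : Fin n → ℕ, (∀ x, d x ≤ Δ) → n ≤ ∑ x, d x →
      ((univ.filter fun G : SimpleGraph (Fin n) => Deg G d ∧ A G).card : ℝ) ≤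
        κ * ((univ.filter fun G : SimpleGraph (Fin n) => Deg G d ∧ B G).card : ℝ)) :
    ((univ.filter fun G : SimpleGraph (Fin n) =>
      ((∀ x, dgs G x ≤ Δ) ∧ n ≤ ∑ x, dgs G x) ∧ A G).card : ℝ) ≤
        κ * ((univ.filter fun G : SimpleGraph (Fin n) =>
      ((∀ x, dgs G x ≤ Δ) ∧ n ≤ ∑ x, dgs G x) ∧ B G).card : ℝ) := by
  set T : Finset (Fin n → ℕ) := (Fintype.piFinset fun _ : Fin n => range (Δ + 1)).filter
    fun d => n ≤ ∑ x, d x with hT
  have hfib : ∀ (Q : SimpleGraph (Fin n) → Prop),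
      (univ.filter fun G : SimpleGraph (Fin n) =>
        ((∀ x, dgs G x ≤ Δ) ∧ n ≤ ∑ x, dgs G x) ∧ Q G).card =
      ∑ d ∈ T, (univ.filter fun G : SimpleGraph (Fin n) => Deg G d ∧ Q G).card := by
    intro Q
    have h1 := Finset.card_eq_sum_card_fiberwise (f := dgs)
      (s := univ.filter fun G : SimpleGraph (Fin n) =>
        ((∀ x, dgs G x ≤ Δ) ∧ n ≤ ∑ x, dgs G x) ∧ Q G) (t := T)
      (fun G hG => mem_coe.2 (by
        obtain ⟨-, ⟨a1, a2⟩, -⟩ := mem_filter.1 (mem_coe.1 hG)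
        rw [hT, mem_filter, Fintype.mem_piFinset]
        exact ⟨fun x => mem_range.2 (Nat.lt_succ_of_le (a1 x)), a2⟩))
    rw [h1]
    refine Finset.sum_congr rfl fun d hd => ?_
    rw [hT, mem_filter, Fintype.mem_piFinset] at hd
    congr 1
    ext G
    simp only [mem_filter, mem_univ, true_and]
    constructor
    · rintro ⟨⟨⟨a1, a2⟩, a3⟩, a5⟩
      exact ⟨fun x => congrFun a5 x, a3⟩
    · rintro ⟨a2, a4⟩
      have a5 : dgs G = d := funext a2
      refine ⟨⟨⟨fun x => ?_, ?_⟩, a4⟩, a5⟩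
      · rw [a5]; exact Nat.lt_succ_iff.1 (mem_range.1 (hd.1 x))
      · rw [a5]; exact hd.2
  rw [hfib A, hfib B]
  push_cast
  rw [Finset.mul_sum]
  refine Finset.sum_le_sum fun d hd => ?_
  rw [hT, mem_filter, Fintype.mem_piFinset] at hd
  exact h d (fun x => Nat.lt_succ_iff.1 (mem_range.1 (hd.1 x))) hd.2

/-- **The general theorem**: all classes which contain the graphs of large girth. -/
theorem gen_all (ε K : ℝ) (hε : 0 < ε) (hK : 0 < K) :
    ∃ Δ₀ : ℕ, ∀ Δ g q : ℕ, Δ₀ ≤ Δ → 3 ≤ g → (1 / 2 + ε) * (Δ / Real.log Δ) ≤ q → 2 ≤ q →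
      ∃ n₀ : ℕ, ∀ n : ℕ, n₀ ≤ n → ∀ P : SimpleGraph (Fin n) → Prop,
        (∀ G, GirthGt G g → (∀ x, dgs G x ≤ Δ) → P G) →
      (∀ d : Fin n → ℕ, (∀ x, d x ≤ Δ) → n ≤ ∑ x, d x →
        (Even (∑ x, d x) → ∃ G, Deg G d ∧ P G) ∧
        ((univ.filter fun G : SimpleGraph (Fin n) => Deg G d ∧ P G ∧ ¬ G.Colorable q).card : ℝ) ≤
          (n : ℝ) ^ (-K) *
            ((univ.filter fun G : SimpleGraph (Fin n) => Deg G d ∧ P G).card : ℝ)) ∧
      ((univ.filter fun G : SimpleGraph (Fin n) =>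
        (∀ x, dgs G x ≤ Δ) ∧ P G ∧ ¬ G.Colorable q).card : ℝ) ≤
          (n : ℝ) ^ (-K) *
            ((univ.filter fun G : SimpleGraph (Fin n) => (∀ x, dgs G x ≤ Δ) ∧ P G).card : ℝ) := by
  obtain ⟨Δ₀, h⟩ := key_deg ε (K + 1) hε (by linarith)
  refine ⟨max Δ₀ 3, fun Δ g q hΔ hg hq hq2 => ?_⟩
  obtain ⟨C, n₁, hC, h⟩ := h Δ g q ((le_max_left _ _).trans hΔ) hg hq hq2
  obtain ⟨n₂, hlow⟩ := t_LOW addOk 0 Δ (K + 1) ((le_max_right _ _).trans hΔ) (by linarith)
  refine ⟨max (max n₁ n₂) (max 2 (⌈3 * C⌉₊)), fun n hn P hP => ?_⟩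
  have hn₁ : n₁ ≤ n := ((le_max_left _ _).trans (le_max_left _ _)).trans hn
  have hn₂ : n₂ ≤ n := ((le_max_right _ _).trans (le_max_left _ _)).trans hn
  have hn2 : 2 ≤ n := ((le_max_left _ _).trans (le_max_right _ _)).trans hn
  have hn3 : ⌈3 * C⌉₊ ≤ n := ((le_max_right _ _).trans (le_max_right _ _)).trans hn
  have hnR : (2 : ℝ) ≤ n := by exact_mod_cast hn2
  have hn0 : (0 : ℝ) < n := by linarith
  have hCn : 3 * C ≤ n := (Nat.le_ceil _).trans (by exact_mod_cast hn3)
  set κ : ℝ := (n : ℝ) ^ (-(K + 1)) with hκ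
  have hκ0 : 0 < κ := by positivity
  have hpow : (n : ℝ) * κ = (n : ℝ) ^ (-K) := by
    nth_rw 1 [← Real.rpow_one (n : ℝ)]
    rw [hκ, ← Real.rpow_add hn0]
    congr 1; ring
  have hκK : 3 * C * κ ≤ (n : ℝ) ^ (-K) := by
    rw [← hpow]; exact mul_le_mul_of_nonneg_right hCn hκ0.le
  have hκ1 : κ ≤ 1 / 2 := by
    have h1 : (n : ℝ) ^ (-(K + 1)) ≤ (n : ℝ) ^ (-1 : ℝ) :=
      Real.rpow_le_rpow_of_exponent_le (by linarith) (by linarith)
    rw [Real.rpow_neg_one] at h1
    refine h1.trans ?_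
    rw [inv_eq_one_div]
    exact one_div_le_one_div_of_le (by norm_num) hnR
  have hsubC : ∀ d : Fin n → ℕ, (∀ x, d x ≤ Δ) →
      ((univ.filter fun G : SimpleGraph (Fin n) => Cls g d G).card : ℝ) ≤
      ((univ.filter fun G : SimpleGraph (Fin n) => Deg G d ∧ GirthGt G g).card : ℝ) := by
    intro d _
    refine Nat.cast_le.2 (card_le_card fun G hG => ?_)
    obtain ⟨-, a1, a2⟩ := mem_filter.1 hG
    exact mem_filter.2 ⟨mem_univ _, a2, a1⟩
  have hgP : ∀ d : Fin n → ℕ, (∀ x, d x ≤ Δ) → ∀ G, Cls g d G → Deg G d ∧ P G := by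
    rintro d hd G ⟨a1, a2⟩
    exact ⟨a2, hP G a1 (fun x => (a2 x).le.trans (hd x))⟩
  refine ⟨fun d hd hdn => ?_, ?_⟩
  · obtain ⟨h1, -, h3⟩ := h n hn₁ d hd hdn
    refine ⟨fun hev => ?_, ?_⟩
    · obtain ⟨G, hG⟩ := h1 hev
      exact ⟨G, hgP d hd G hG⟩
    · have e1 : ((univ.filter fun G : SimpleGraph (Fin n) =>
          Deg G d ∧ P G ∧ ¬ G.Colorable q).card : ℝ) ≤
          ((univ.filter fun G : SimpleGraph (Fin n) => Deg G d ∧ ¬ G.Colorable q).card : ℝ) := by
        refine Nat.cast_le.2 (card_le_card fun G hG => ?_)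
        obtain ⟨-, a1, -, a3⟩ := mem_filter.1 hG
        exact mem_filter.2 ⟨mem_univ _, a1, a3⟩
      have e2 : ((univ.filter fun G : SimpleGraph (Fin n) => Cls g d G).card : ℝ) ≤
          ((univ.filter fun G : SimpleGraph (Fin n) => Deg G d ∧ P G).card : ℝ) := by
        refine Nat.cast_le.2 (card_le_card fun G hG => ?_)
        exact mem_filter.2 ⟨mem_univ _, hgP d hd G (mem_filter.1 hG).2⟩
      refine (e1.trans h3).trans ?_
      have e3 : C * κ ≤ (n : ℝ) ^ (-K) := by
        have : 0 < C * κ := by positivity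
        linarith
      exact mul_le_mul e3 e2 (Nat.cast_nonneg _) (by positivity)
  · -- graphs with at least `n / 2` edges
    have s1 := sum_deg (n := n) (Δ := Δ) (fun G => ¬ G.Colorable q) (fun G => GirthGt G g)
      (C * κ) (fun d hd hdn => by
        have h1 := (h n hn₁ d hd hdn).2.2
        have h2 := h1.trans (mul_le_mul_of_nonneg_left (hsubC d hd) (by positivity))
        exact le_trans (Nat.cast_le.2 (card_inst _ _ _ _).le) h2)
    have s2 := sum_deg (n := n) (Δ := Δ) (fun _ => True) (fun G => GirthGt G g)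
      C (fun d hd hdn => by
        have := (h n hn₁ d hd hdn).2.1
        simp only [and_true]
        exact this.trans (mul_le_mul_of_nonneg_left (hsubC d hd) hC.le))
    simp only [and_true] at s2
    have s3 := hlow n hn₂
    have hcl : ∀ G : SimpleGraph (Fin n), ClsMax 0 Δ G ↔ ∀ x, dgs G x ≤ Δ := by
      intro G
      refine ⟨fun h => h.2, fun h => ⟨fun x c hc => ?_, h⟩⟩
      have := hc.three_le_length
      omega
    simp only [hcl] at s3
    set L : ℝ := ((univ.filter fun G : SimpleGraph (Fin n) =>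
      (∀ x, dgs G x ≤ Δ) ∧ ∑ x, dgs G x < n).card : ℝ) with hL
    set H : ℝ := ((univ.filter fun G : SimpleGraph (Fin n) =>
      (∀ x, dgs G x ≤ Δ) ∧ n ≤ ∑ x, dgs G x).card : ℝ) with hH
    set W : ℝ := ((univ.filter fun G : SimpleGraph (Fin n) =>
      ((∀ x, dgs G x ≤ Δ) ∧ n ≤ ∑ x, dgs G x) ∧ GirthGt G g).card : ℝ) with hW
    set B : ℝ := ((univ.filter fun G : SimpleGraph (Fin n) =>
      ((∀ x, dgs G x ≤ Δ) ∧ n ≤ ∑ x, dgs G x) ∧ ¬ G.Colorable q).card : ℝ) with hB
    have hLH : ((univ.filter fun G : SimpleGraph (Fin n) => ∀ x, dgs G x ≤ Δ).card : ℝ) ≤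
        L + H := by
      rw [hL, hH, ← Nat.cast_add]
      refine Nat.cast_le.2 ((card_le_card fun G hG => ?_).trans (card_union_le _ _))
      have a1 := (mem_filter.1 hG).2
      rw [mem_union, mem_filter, mem_filter]
      rcases lt_or_ge (∑ x, dgs G x) n with h4 | h4
      · exact Or.inl ⟨mem_univ _, a1, h4⟩
      · exact Or.inr ⟨mem_univ _, a1, h4⟩
    have hWP : W ≤ ((univ.filter fun G : SimpleGraph (Fin n) =>
        (∀ x, dgs G x ≤ Δ) ∧ P G).card : ℝ) := by
      refine Nat.cast_le.2 (card_le_card fun G hG => ?_)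
      obtain ⟨-, ⟨a1, -⟩, a2⟩ := mem_filter.1 hG
      exact mem_filter.2 ⟨mem_univ _, a1, hP G a2 a1⟩
    have hbad : ((univ.filter fun G : SimpleGraph (Fin n) =>
        (∀ x, dgs G x ≤ Δ) ∧ P G ∧ ¬ G.Colorable q).card : ℝ) ≤ L + B := by
      rw [hL, hB, ← Nat.cast_add]
      refine Nat.cast_le.2 ((card_le_card fun G hG => ?_).trans (card_union_le _ _))
      obtain ⟨-, a1, -, a3⟩ := mem_filter.1 hG
      rw [mem_union, mem_filter, mem_filter]
      rcases lt_or_ge (∑ x, dgs G x) n with h4 | h4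
      · exact Or.inl ⟨mem_univ _, a1, h4⟩
      · exact Or.inr ⟨mem_univ _, ⟨a1, h4⟩, a3⟩
    have s1' : B ≤ C * κ * W := by
      exact le_trans (Nat.cast_le.2 (card_inst _ _ _ _).le) s1
    have hW0 : 0 ≤ W := Nat.cast_nonneg _
    have hH0 : 0 ≤ H := Nat.cast_nonneg _
    have hL0 : 0 ≤ L := Nat.cast_nonneg _
    have hLH2 : L ≤ κ * (L + H) := s3.trans (mul_le_mul_of_nonneg_left hLH hκ0.le)
    have hLH3 : L ≤ H := by nlinarith
    have hL4 : L ≤ 2 * C * κ * W := by
      have h1 : κ * (L + H) ≤ κ * (2 * (C * W)) :=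
        mul_le_mul_of_nonneg_left (by linarith) hκ0.le
      linarith
    calc _ ≤ L + B := hbad
      _ ≤ 2 * C * κ * W + C * κ * W := add_le_add hL4 s1'
      _ = 3 * C * κ * W := by ring
      _ ≤ _ := mul_le_mul hκK hWP hW0 (by positivity)

end Run7.h932.DS
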