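import Pool.Agent.Run7.h932.DS.Final
import Pool.Agent.Run7.h932.DS.Add

set_option autoImplicit false

namespace Run7.h932.DS

theorem addOk : S_ADD := t_ADD

end Run7.h932.DS
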