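import Pool.Agent.Run7.h932.RG.Stm2

set_option autoImplicit false

/-!
# Project DS (MP_ef9bc2_co): almost all graphs of girth more than `g` with a given degree sequence
in `[1, Δ]` satisfy the inequality of Q1 (configuration model). Definitions and statements.

Positions are the pairs `(j, b)`, `j : Fin m`, `b : Bool`; there are `2m` half-edges, which are also
indexed by `Fin m × Bool`; `v h` is the vertex of the half-edge `h`; a permutation `π` gives the
multigraph with the edges `j`, with the ends `v (π (j, false))` and `v (π (j, true))`.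
-/

namespace Run7.h932.DS

open Finset Classical

/-- Positions, and half-edges. -/
abbrev HE (m : ℕ) : Type := Fin m × Bool

/-- The number of the `x` with `f x = a`. -/
noncomputable def cnt {X A : Type} [Fintype X] (f : X → A) (a : A) : ℕ :=
  (univ.filter fun x => f x = a).card

/-- `σ` is a proper colouring (a loop forbids all colourings). -/
def Prp {n m k : ℕ} (v : HE m → Fin n) (π : Equiv.Perm (HE m)) (σ : Fin n → Fin k) : Prop :=
  ∀ j, σ (v (π (j, false))) ≠ σ (v (π (j, true)))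

/-- The proper colourings with `k` colours. -/
noncomputable def cols {n m : ℕ} (k : ℕ) (v : HE m → Fin n) (π : Equiv.Perm (HE m)) :
    Finset (Fin n → Fin k) := univ.filter fun σ => Prp v π σ

/-- The number of the edges inside `U`. -/
noncomputable def eU {n m : ℕ} (v : HE m → Fin n) (π : Equiv.Perm (HE m)) (U : Finset (Fin n)) :
    ℕ := (univ.filter fun j : Fin m => v (π (j, false)) ∈ U ∧ v (π (j, true)) ∈ U).card

/-- `w` is a walk from `x` to `y`: the position `(j, b)` stands for a passage through the edge `j`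
from `v (π (j, b))` to `v (π (j, !b))`. -/
def IsWalk {n m : ℕ} (v : HE m → Fin n) (π : Equiv.Perm (HE m)) :
    List (HE m) → Fin n → Fin n → Prop
  | [], x, y => x = y
  | p :: w, x, y => v (π p) = x ∧ IsWalk v π w (v (π (p.1, !p.2))) y

/-- There is a walk from `x` to `y` of length at most `L` which passes no edge twice, and no edge
of `S`. -/
def Trail {n m : ℕ} (v : HE m → Fin n) (π : Equiv.Perm (HE m)) (L : ℕ) (S : Set (Fin m))
    (x y : Fin n) : Prop :=
  ∃ w : List (HE m), w.length ≤ L ∧ (w.map Prod.fst).Nodup ∧ (∀ p ∈ w, p.1 ∉ S) ∧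
    IsWalk v π w x y

/-- The edge `j` is on a closed trail of length at most `L + 1` (for `L = 0` a loop). -/
def Bad {n m : ℕ} (v : HE m → Fin n) (π : Equiv.Perm (HE m)) (L : ℕ) (j : Fin m) : Prop :=
  Trail v π L {j} (v (π (j, false))) (v (π (j, true)))

/-- There is no closed trail of length at most `L + 1`. -/
def Nice {n m : ℕ} (v : HE m → Fin n) (π : Equiv.Perm (HE m)) (L : ℕ) : Prop :=
  ∀ j, ¬ Bad v π L j

/-- The bad edges. -/
noncomputable def bads {n m : ℕ} (v : HE m → Fin n) (π : Equiv.Perm (HE m)) (L : ℕ) :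
    Finset (Fin m) := univ.filter fun j => Bad v π L j

/-- No end of `i` is at distance at most `D` of an end of `j`. -/
def Far {n m : ℕ} (v : HE m → Fin n) (π : Equiv.Perm (HE m)) (D : ℕ) (i j : Fin m) : Prop :=
  ∀ b b' : Bool, ¬ Trail v π D ∅ (v (π (i, b))) (v (π (j, b')))

/-- Switching: the edges `i` and `j` exchange their half-edges at the positions `(i, false)` and
`(j, false)`. -/
def sw {m : ℕ} (π : Equiv.Perm (HE m)) (i j : Fin m) : Equiv.Perm (HE m) :=
  π * Equiv.swap (i, false) (j, false)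

/-- The colouring `σ` is nearly balanced. -/
def NB {n m k : ℕ} (v : HE m → Fin n) (w : ℝ) (σ : Fin n → Fin k) : Prop :=
  ∀ a, |(cnt (fun h => σ (v h)) a : ℝ) - 2 * m / k| ≤ w

/-- The simple graph. -/
def gr {n m : ℕ} (v : HE m → Fin n) (π : Equiv.Perm (HE m)) : SimpleGraph (Fin n) :=
  SimpleGraph.fromRel fun x y => ∃ j, x = v (π (j, false)) ∧ y = v (π (j, true))

/-- `π` represents the simple graph `G` (each edge of `π` is an edge of `G`, no loops, no parallel
edges). -/
def Rep {n m : ℕ} (v : HE m → Fin n) (π : Equiv.Perm (HE m)) (G : SimpleGraph (Fin n)) : Prop :=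
  (∀ j, G.Adj (v (π (j, false))) (v (π (j, true)))) ∧
    Function.Injective fun j => s(v (π (j, false)), v (π (j, true)))

/-- `G` has no cycle of length at most `g`. -/
def GirthGt {V : Type} (G : SimpleGraph V) (g : ℕ) : Prop :=
  ∀ (x : V) (c : G.Walk x x), c.IsCycle → g < c.length

/-- The degrees of `G` are `d`. -/
def Deg {n : ℕ} (G : SimpleGraph (Fin n)) (d : Fin n → ℕ) : Prop :=
  ∀ x, (univ.filter fun y => G.Adj x y).card = d x

/-! ### pairings and types -/

/-- UB. Proof: the permutations with `κ ∘ π = c`, for a sequence `c` with the same counts `D a` as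
`κ`, are `∏ (D a)!` in number (`Pool.Agent.N404.LF.fib_card` is similar). The number of the
sequences `c` with the counts `D` and `R (c (j, false)) (c (j, true))` for all `j`, times
`∏ (D a / 2m) ^ (D a)`, is at most the sum of `∏ h, D (c h) / 2m` over all `c` with this property, which
is the `m`-th power on the right. And `∏ (D a)! ≤ (2m)! (3 (2m + 1)) ^ |A| ∏ (D a / 2m) ^ (D a)` by
`Pool.Agent.N404.LF.proof_FACT` (`n^n ≤ n! e^n`, `n! e^n ≤ 3 (n + 1) n^n`). -/
def S_UB : Prop := ∀ (A : Type) [Fintype A] (m : ℕ) (κ : HE m → A) (R : A → A → Prop), 1 ≤ m →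
  ((univ.filter fun π : Equiv.Perm (HE m) =>
      ∀ j, R (κ (π (j, false))) (κ (π (j, true)))).card : ℝ) ≤
    ((2 * m).factorial : ℝ) * (3 * (2 * (m : ℝ) + 1)) ^ Fintype.card A *
      (∑ a, ∑ b, if R a b then ((cnt κ a : ℝ) / (2 * m)) * ((cnt κ b : ℝ) / (2 * m)) else 0) ^ m

/-- LBC: many proper sequences with nearly balanced counts. Proof: choose the pairs at the first
`m - s` indices arbitrarily with two different colours; by Chebyshev, for at least half of the
`(k (k - 1)) ^ (m - s)` choices all counts differ from `2 (m - s) / k` by at most `w` (the variance of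
a count is at most `2 m / k`, there are `k` counts, `4 m ≤ w ^ 2`). The remaining counts `E a` then
differ from `2 s / k` by at most `2 w ≤ 2 s / k`, so they are between `0` and `4 s / k ≤ s`, with the
sum `2 s`; list `2 s` entries sorted by colour and pair the entries at distance `s`: the two colours
of a pair differ. -/
def S_LBC : Prop := ∀ (k m s : ℕ) (w : ℝ) (D : Fin k → ℕ), 4 ≤ k → s ≤ m → 0 ≤ w → k * w ≤ s →
  4 * (m : ℝ) ≤ w ^ 2 → ∑ a, D a = 2 * m → (∀ a, |(D a : ℝ) - 2 * m / k| ≤ w) →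
  ((k : ℝ) * (k - 1)) ^ m ≤ 2 * (k : ℝ) ^ (2 * s) *
    ((univ.filter fun c : HE m → Fin k =>
      (∀ a, cnt c a = D a) ∧ ∀ j, c (j, false) ≠ c (j, true)).card : ℝ)

/-- LB. Proof: for each `c` with the counts of `κ` there are `F = ∏ (cnt κ a)!` permutations with
`κ ∘ π = c`, and `(2m)! ≤ k^(2m) F` since there are at most `k^(2m)` sequences `κ ∘ π`. -/
def S_LB : Prop := ∀ (k m : ℕ) (κ : HE m → Fin k), 1 ≤ k →
  (2 * m).factorial * (univ.filter fun c : HE m → Fin k =>
      (∀ a, cnt c a = cnt κ a) ∧ ∀ j, c (j, false) ≠ c (j, true)).card ≤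
    k ^ (2 * m) * (univ.filter fun π : Equiv.Perm (HE m) =>
      ∀ j, κ (π (j, false)) ≠ κ (π (j, true))).card

/-- BAL: at least half of all the colourings are nearly balanced. Proof: Chebyshev; the variance of
the count of a colour is at most `∑ (cnt v x)^2 / k ≤ 2 m Δ / k`. -/
def S_BAL : Prop := ∀ (n m k Δ : ℕ) (v : HE m → Fin n) (w : ℝ), 1 ≤ k → 0 < w →
  (∀ x, cnt v x ≤ Δ) → 4 * (Δ : ℝ) * m ≤ w ^ 2 →
  (k : ℝ) ^ n ≤ 2 * ((univ.filter fun σ : Fin n → Fin k => NB v w σ).card : ℝ)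

/-- SEC: second moment, for a fixed nearly balanced `σ`. Proof: for each `τ` apply UB with
`A = Fin k × Fin k`, `κ h = (σ (v h), τ (v h))`, `R a b := a.1 ≠ b.1 ∧ a.2 ≠ b.2`; let `ρ a` be the
proportion of the half-edges with `κ h = a`. The double sum of UB is
`1 - ∑ (rows of ρ)^2 - ∑ (columns of ρ)^2 + ∑ ρ^2 ≤ 1 - 2/k + ∑ ρ^2
  = (1 - 1/k)^2 (1 + (k/(k-1))^2 (∑ ρ^2 - 1/k^2)) ≤ (1 - 1/k)^2 exp ((k/(k-1))^2 (∑ ρ^2 - 1/k^2))`,
and `(k/(k-1))^2 m ∑ ρ^2 = 1/2 ∑ x, ∑ y, if τ x = τ y then w x y else 0` for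
`w x y = if σ x = σ y then (k/(k-1))^2 (cnt v x) (cnt v y) / (2 m) else 0`. Sum over `τ` with
`RG.S_MF` (proved: `Run7.h932.RG.mf`), with `N = ⌈n^(1/3)⌉`, `P = 4 Δ^2 / n`: the row sums are at most
`(k/(k-1))^2 Δ (1/k + n^(2/3) / (2 m)) ≤ 2 log k - 2`, the error factors are at most
`exp (C n^(2/3) log n)`, and `(∑ x, ∑ y, w x y) / (2 k) ≤ (k/(k-1))^2 (m / k^2 + n^(4/3) / (4 m))`. -/
def S_SEC : Prop := ∀ (k Δ : ℕ), 3000 ≤ k →
  ((k : ℝ) / (k - 1)) ^ 2 * (Δ / k + 1 / 2) ≤ 2 * Real.log k - 2 →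
  ∃ n₀ : ℕ, ∀ n m : ℕ, n₀ ≤ n → n ≤ 2 * m → ∀ v : HE m → Fin n, (∀ x, cnt v x ≤ Δ) →
    ∀ σ : Fin n → Fin k, NB v ((n : ℝ) ^ (2 / 3 : ℝ)) σ →
      ∑ τ : Fin n → Fin k,
        ((univ.filter fun π : Equiv.Perm (HE m) => Prp v π σ ∧ Prp v π τ).card : ℝ) ≤
      ((2 * m).factorial : ℝ) * (1 - 1 / (k : ℝ)) ^ (2 * m) * (k : ℝ) ^ n *
        Real.exp ((n : ℝ) ^ (4 / 5 : ℝ))

/-- AA: with probability not too small there are many colourings. Proof: `X π` = number of the
proper `σ` with `NB v (n^(2/3)) σ`; Paley-Zygmund (`RG.S_PZ`, proved: `Run7.h811.RG.t_PZ`, with the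
weights `1 / (2m)!`); first moment from BAL, LB, LBC with `s = ⌈k n^(2/3)⌉`, second moment from SEC;
`n ≤ 2 m ≤ Δ n`. -/
def S_AA : Prop := ∀ (k Δ : ℕ), 3000 ≤ k →
  ((k : ℝ) / (k - 1)) ^ 2 * (Δ / k + 1 / 2) ≤ 2 * Real.log k - 2 →
  ∃ n₀ : ℕ, ∀ n m : ℕ, n₀ ≤ n → n ≤ 2 * m → ∀ v : HE m → Fin n, (∀ x, cnt v x ≤ Δ) →
    ∃ A : Finset (Equiv.Perm (HE m)),
      Real.exp (-(n : ℝ) ^ (17 / 20 : ℝ)) * ((2 * m).factorial : ℝ) ≤ (A.card : ℝ) ∧
      ∀ π ∈ A, (1 - 1 / (k : ℝ)) ^ m * ((k : ℝ) ^ n * Real.exp (-(n : ℝ) ^ (17 / 20 : ℝ))) ≤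
        ((cols k v π).card : ℝ)

/-- ISO: from `Pool.Agent.N404.LF.S_ISO` (proved in `Pool.Agent.N342.LF_ISO`) with `I = Unit`,
`N = 2 m` and an equivalence of `Fin m × Bool` with `Fin (2 * m)`. -/
def S_ISO : Prop := ∀ (m : ℕ) (A : Finset (Equiv.Perm (HE m))) (t : ℝ), 0 ≤ t →
  (A.card : ℝ) * ((univ.filter fun π : Equiv.Perm (HE m) => ∀ π' ∈ A,
      t ≤ ((univ.filter fun h => π h ≠ π' h).card : ℝ)).card : ℝ) ≤
    ((2 * m).factorial : ℝ) ^ 2 * Real.exp (-(t ^ 2 / (36 * m)))

/-- SPA: small sets span few edges. Proof: union over the sets `U` of size `s` (at most `n^s`) and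
over the sets `T` of `t = ⌈r s / 2⌉` indices (at most `(e m / t)^t`); the probability that all the
edges in `T` have both ends in `U` is at most `(Δ s / (2 m))^(2 t)`. Together at most
`n^s (e Δ^2 s / (r n))^(r s / 2) ≤ (C n^(1 - r / 40))^s`, since `s ≤ 2 n^(19/20)`; take
`r ≥ 40 (K + 3)`. -/
def S_SPA : Prop := ∀ K : ℝ, 0 < K → ∃ r₀ : ℕ, ∀ r : ℕ, r₀ ≤ r → ∀ Δ : ℕ,
  ∃ n₀ : ℕ, ∀ n m : ℕ, n₀ ≤ n → n ≤ 2 * m → ∀ v : HE m → Fin n, (∀ x, cnt v x ≤ Δ) →
    ((univ.filter fun π : Equiv.Perm (HE m) => ∃ U : Finset (Fin n), U.Nonempty ∧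
      (U.card : ℝ) ≤ 2 * (n : ℝ) ^ (19 / 20 : ℝ) ∧ r * U.card ≤ 2 * eU v π U).card : ℝ) ≤
    (n : ℝ) ^ (-K) * ((2 * m).factorial : ℝ)

/-- DEG: sets all of whose parts span few edges can be coloured with `r` colours (induction on
the size of `X`, some vertex has degree less than `r`). Compare `Run7.h216.RG.t_DEG2`. -/
def S_DEG : Prop := ∀ (r n m : ℕ) (v : HE m → Fin n) (π : Equiv.Perm (HE m))
  (X : Finset (Fin n)), 1 ≤ r → (∀ j, v (π (j, false)) ≠ v (π (j, true))) →
  (∀ U ⊆ X, U.Nonempty → 2 * eU v π U < r * U.card) →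
  ∃ c : Fin n → Fin r, ∀ j, v (π (j, false)) ∈ X → v (π (j, true)) ∈ X →
    c (v (π (j, false))) ≠ c (v (π (j, true)))

/-- EXT: repairing the colourings of `π'` on `X` with `r` more colours. Compare
`Run7.h216.RG.t_EXT2`. -/
def S_EXT : Prop := ∀ (r n m k : ℕ) (v : HE m → Fin n) (π π' : Equiv.Perm (HE m))
  (X : Finset (Fin n)),
  (∀ j, (π (j, false) ≠ π' (j, false) ∨ π (j, true) ≠ π' (j, true)) →
    v (π (j, false)) ∈ X ∧ v (π (j, true)) ∈ X) →
  (∃ c : Fin n → Fin r, ∀ j, v (π (j, false)) ∈ X → v (π (j, true)) ∈ X →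
    c (v (π (j, false))) ≠ c (v (π (j, true)))) →
  (cols k v π').card ≤ k ^ X.card * (cols (k + r) v π).card

/-- FIN: the main count. Proof: `r` from SPA for `K + 1`, then `RG.S_NUM2` (proved:
`Run7.h300.RG.t_NUM2`) with `c = 1/3`, AA for `k = q - r`; ISO with `t = n^(19/20)`: since
`2 m ≤ Δ n`, all `π` but a proportion `exp (n^(17/20) - n^(9/10) / (18 Δ))` are at distance less than
`t` from some `π' ∈ A`; `X` = the ends (for `π`) of the edges where `π` and `π'` differ, at most `2 t`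
vertices; SPA, DEG, EXT. -/
def S_FIN : Prop := ∀ (ε η K : ℝ), 0 < ε → 0 < η → η < 1 → 0 < K →
  ∃ Δ₀ : ℕ, ∀ Δ q : ℕ, Δ₀ ≤ Δ → (1 / 2 + ε) * (Δ / Real.log Δ) ≤ q →
  ∃ n₀ : ℕ, ∀ n m : ℕ, n₀ ≤ n → n ≤ 2 * m → ∀ v : HE m → Fin n, (∀ x, cnt v x ≤ Δ) →
    ((univ.filter fun π : Equiv.Perm (HE m) => (∀ j, v (π (j, false)) ≠ v (π (j, true))) ∧
      ¬ ((1 - 1 / (q : ℝ)) ^ m * ((1 - η) * q) ^ n ≤ ((cols q v π).card : ℝ))).card : ℝ) ≤
    (n : ℝ) ^ (-K) * ((2 * m).factorial : ℝ)

/-! ### switching: with positive probability there is no short cycle -/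

/-- FAR: few edges are near to a given edge (walks of length at most `D` from a vertex reach at
most `(Δ + 1)^D` vertices, each is an end of at most `Δ` edges). -/
def S_FAR : Prop := ∀ Δ D : ℕ, ∃ C : ℕ, ∀ (n m : ℕ) (v : HE m → Fin n) (π : Equiv.Perm (HE m)),
  (∀ x, cnt v x ≤ Δ) → (∀ (x : Fin n), (univ.filter fun j : Fin m =>
    ∃ b, Trail v π D ∅ x (v (π (j, b)))).card ≤ C) ∧
  ∀ i, (univ.filter fun j => ¬ Far v π D i j).card ≤ C

/-- FWD: switching a bad edge `i` with a far edge `j` which is not bad makes `i` good and creates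
no bad edge. Proof: write `x = v (π (i, false))`, `y = v (π (i, true))`, `x' = v (π (j, false))`,
`y' = v (π (j, true))`; in `sw π i j` the edge `i` joins `x'` and `y`, the edge `j` joins `x` and `y'`, all
other edges are unchanged. Let `w` be a trail in `sw π i j` of length at most `L` which avoids `e` and
joins the ends of `e`. It passes `i` and `j` at most once. If `e = i`: if `w` avoids `j`, it joins `x'` and
`y` in `π`, impossible since `j` is far; if not, its part before `j` goes in `π` from `x'` to `x`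
(impossible) or to `y'` avoiding `j` (then `j` is bad). The same for `e = j`. If `e ≠ i, j`: if `w` avoids
`i` and `j`, then `e` is bad for `π`. If it passes only one of them, the rest of `w` and `e` give a
trail in `π` of length at most `L` between an end of `i` and an end of `j`. If it passes both, the
part between them joins `x, y` with each other or `x', y'` with each other, and in the first case
the rest with `e` joins `x'` and `y'`; so `j` is bad, or an end of `i` is near to an end of `j`. -/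
def S_FWD : Prop := ∀ (n m L : ℕ) (v : HE m → Fin n) (π : Equiv.Perm (HE m)) (i j : Fin m),
  Far v π (2 * L + 2) i j → ¬ Bad v π L j →
  ∀ e, Bad v (sw π i j) L e → e ≠ i ∧ Bad v π L e

/-- REV: few switchings lead to a given permutation `π'` from one with `i` bad. Proof: for
`π = sw π' i j` the trail which makes `i` bad does not pass `j` (far), so it is a trail of `π'` from
`v (π' (j, false))` to `v (π' (i, true))`; for each `i` there are at most `C` such `j` by FAR. -/
def S_REV : Prop := ∀ L Δ : ℕ, ∃ C : ℕ, ∀ (n m : ℕ) (v : HE m → Fin n)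
  (π' : Equiv.Perm (HE m)), (∀ x, cnt v x ≤ Δ) →
  (univ.filter fun z : Fin m × Fin m =>
    Bad v (sw π' z.1 z.2) L z.1 ∧ Far v (sw π' z.1 z.2) (2 * L + 2) z.1 z.2).card ≤ C * m

/-- EXP: the mean number of the bad edges is bounded. Proof: count the triples `(π, i, j)` with `i`
bad and `j` far: at least `m - C` choices of `j` for each `(π, i)` (FAR), and at most `C m` pairs
`(i, j)` for each `sw π i j` (REV); `sw (sw π i j) i j = π`. -/
def S_EXP : Prop := ∀ L Δ : ℕ, ∃ C m₀ : ℕ, ∀ (n m : ℕ) (v : HE m → Fin n), m₀ ≤ m →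
  (∀ x, cnt v x ≤ Δ) →
  ∑ π : Equiv.Perm (HE m), (bads v π L).card ≤ C * (2 * m).factorial

/-- SW: with positive probability there is no bad edge. Proof: let `B t` be the number of the `π`
with `t` bad edges; by EXP at least half of all `π` have at most `J` bad edges; count the triples
`(π, i, j)` with `|bads| = t`, `1 ≤ t ≤ J`, `i` bad, `j` far and not bad: by FWD and REV
`t (m - C - J) (B t) ≤ C m ∑ u < t, B u`, so `∑ u ≤ t, B u ≤ (1 + 2 C) ∑ u < t, B u` for large `m`. -/
def S_SW : Prop := ∀ L Δ : ℕ, ∃ (c : ℝ) (m₀ : ℕ), 0 < c ∧ ∀ (n m : ℕ) (v : HE m → Fin n),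
  m₀ ≤ m → (∀ x, cnt v x ≤ Δ) →
  c * ((2 * m).factorial : ℝ) ≤
    ((univ.filter fun π : Equiv.Perm (HE m) => Nice v π L).card : ℝ)

/-! ### graphs -/

/-- NICE1. Proof: loops, parallel edges (`L ≥ 1`) are closed trails of length 1, 2; the edges of a
cycle of `gr v π` come from different `j`. -/
def S_NICE1 : Prop := ∀ (n m L : ℕ) (v : HE m → Fin n) (π : Equiv.Perm (HE m)), 1 ≤ L →
  Nice v π L → Rep v π (gr v π) ∧ Deg (gr v π) (cnt v) ∧ GirthGt (gr v π) (L + 1) ∧
    Nat.card (gr v π).edgeSet = m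

/-- NICE2. -/
def S_NICE2 : Prop := ∀ (n m L : ℕ) (v : HE m → Fin n) (π : Equiv.Perm (HE m))
  (G : SimpleGraph (Fin n)), Rep v π G → Deg G (cnt v) → GirthGt G (L + 1) →
  Nice v π L ∧ gr v π = G

/-- REP: all the graphs with the same degrees have the same number of representations. Proof: the
representations are the `ρ⁻¹ ∘ ψ`, where `ψ` is a bijection of the positions with the darts of `G`
which respects the reversal, and `ρ` is a bijection of the half-edges with the darts with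
`(ρ h).fst = v h`; the numbers of the `ψ` and of the `ρ` do not depend on `G`. -/
def S_REP : Prop := ∀ (n m : ℕ) (v : HE m → Fin n), ∃ F : ℕ, ∀ G : SimpleGraph (Fin n),
  Deg G (cnt v) → (univ.filter fun π : Equiv.Perm (HE m) => Rep v π G).card = F

/-- COL. -/
def S_COL : Prop := ∀ (n m k : ℕ) (v : HE m → Fin n) (π : Equiv.Perm (HE m)),
  (∀ j, v (π (j, false)) ≠ v (π (j, true))) →
  (cols k v π).card = Nat.card ((gr v π).Coloring (Fin k))

/-- EXV: half-edges for a degree sequence. -/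
def S_EXV : Prop := ∀ (n m : ℕ) (d : Fin n → ℕ), ∑ x, d x = 2 * m →
  ∃ v : HE m → Fin n, ∀ x, cnt v x = d x

end Run7.h932.DS
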