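import Pool.Agent.Run7.h932.DS.Res

set_option autoImplicit false

/-!
# Project DS, second part: graphs with few edges are rare
-/

namespace Run7.h932.DS

open Finset Classical

/-- the class of all graphs of girth more than `g` and maximum degree at most `Δ` -/
def ClsMax {n : ℕ} (g Δ : ℕ) (G : SimpleGraph (Fin n)) : Prop :=
  GirthGt G g ∧ ∀ x, dgs G x ≤ Δ

/-- ADD: many edges can be added to a graph with few edges. Proof: at most `2 m / Δ ≤ n / 2` vertices
have degree `Δ`. Choose `x` and `y` among the others (at least `n / 2` each), such that there is no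
walk of length less than `g` from `x` to `y`: at most `(Δ + 1)^g` vertices `y` are excluded. A cycle
of the new graph through the new edge has length more than `g`. -/
def S_ADD : Prop := ∀ g Δ : ℕ, 3 ≤ Δ → ∃ n₀ : ℕ, ∀ n : ℕ, n₀ ≤ n →
  ∀ G : SimpleGraph (Fin n), ClsMax g Δ G → 2 * (∑ x, dgs G x) ≤ 3 * n →
    n ^ 2 ≤ 32 * (univ.filter fun z : Fin n × Fin n => z.1 < z.2 ∧ ¬ G.Adj z.1 z.2 ∧
      ClsMax g Δ (G ⊔ SimpleGraph.edge z.1 z.2)).card

/-- LOW: the graphs with fewer than `n / 2` edges are rare. Proof: let `B m` be the number of the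
graphs `G` with `ClsMax g Δ G` and `m` edges. Adding an edge (ADD) gives a graph with `m + 1` edges,
which arises at most `m + 1` times: `n^2 (B m) ≤ 32 (m + 1) (B (m + 1))` if `4 m ≤ 3 n`; so
`n (B m) ≤ 32 (B (m + 1))`, and `B m ≤ (32 / n)^J B (m + J)` for `m < n / 2`, `4 J ≤ n`. Sum over
`m < n / 2`, with `J = ⌈K⌉ + 1`. -/
def S_LOW : Prop := ∀ (g Δ : ℕ) (K : ℝ), 3 ≤ Δ → 0 < K → ∃ n₀ : ℕ, ∀ n : ℕ, n₀ ≤ n →
  ((univ.filter fun G : SimpleGraph (Fin n) => ClsMax g Δ G ∧ ∑ x, dgs G x < n).card : ℝ) ≤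
    (n : ℝ) ^ (-K) * ((univ.filter fun G : SimpleGraph (Fin n) => ClsMax g Δ G).card : ℝ)

end Run7.h932.DS
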